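import Pool.Agent.L5helper57.OW.Twist

/-!
# The inverter for `f` made from an inverter for the function with margins
-/

set_option autoImplicit false

namespace Pool.Agent.NPC.L5h57.OW

open Pool.Agent.NPC

/-- part of a word -/
def slice (w : List Bool) (a l : ℕ) : List Bool := (List.range l).map fun i => w.getD (a + i) false

/-- the number of leading ones -/
def nOf (w : List Bool) : ℕ :=
  ((List.range w.length).filter fun k => (List.range w.length).all fun i =>
    decide (k < i) || w.getD i false).length

/-- the output of the new function if copy `j` codes a preimage of `y` with `k` ones -/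
def tgt (f : List Bool → List Bool) (z y : List Bool) (K n m T N j k : ℕ) : List Bool :=
  (List.range N).map fun idx => decide (idx < T) &&
    (bif decide (idx / (n * K) = j) then cellv (gg z K n j) k y m (idx % (n * K)) else
      fcell f z K n m (idx / (n * K)) (idx % (n * K)))

/-- the number of coins -/
noncomputable def qP (B q : Polynomial ℕ) : Polynomial ℕ :=
  (TP B).comp (Polynomial.X + 1) + (q.comp (TP B)).comp (Polynomial.X + 1)

theorem qP_eval (B q : Polynomial ℕ) (n : ℕ) :
    (qP B q).eval n = (TP B).eval (n + 1) + q.eval ((TP B).eval (n + 1)) := by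
  unfold qP
  simp [Polynomial.eval_comp]

/-- a candidate -/
noncomputable def cand (B q : Polynomial ℕ) (f A : List Bool → List Bool) (w y : List Bool)
    (n N j k : ℕ) : List Bool :=
  xs (A ((List.range N).map (fun _ => true) ++ false :: (slice w (n + 1 + N) (q.eval N) ++
    tgt f (slice w (n + 1) N) y ((KP B).eval n) n ((mP B).eval n) ((TP B).eval n) N j k)))
    ((KP B).eval n) n j

/-- the rest of the input -/
noncomputable def yOf (B q : Polynomial ℕ) (w : List Bool) : List Bool :=
  slice w (nOf w + 1 + (qP B q).eval (nOf w)) (w.length - (nOf w + 1 + (qP B q).eval (nOf w)))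

/-- the inverter -/
noncomputable def alg (B q : Polynomial ℕ) (f A : List Bool → List Bool) (w : List Bool) :
    List Bool :=
  (((List.range ((TP B).eval (nOf w + 1))).flatMap fun N => (List.range (nOf w)).flatMap fun j =>
    (List.range (nOf w * (KP B).eval (nOf w) + 1)).map fun k =>
      cand B q f A w (yOf B q w) (nOf w) (min N ((TP B).eval (nOf w + 1))) j k).filter fun c =>
        decide (f c = yOf B q w)).head?.getD []

section PolyS

variable {α : Type} [TEnc α]

theorem poly_slice {w : α → List Bool} {a l : α → ℕ} (hw : NPC.Poly w) (ha : NPC.Poly a)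
    (hl : UPoly l) : NPC.Poly (fun x => slice (w x) (a x) (l x)) := by
  unfold slice
  have hr := hl.range
  fun_prop

theorem uPoly_nOf : UPoly nOf := by
  unfold nOf
  refine UPoly.length (NPC.Poly.filter (NPC.Poly.range_length NPC.Poly.id) ?_)
  refine NPC.Poly.all (NPC.Poly.range_length (NPC.Poly.fst NPC.Poly.id)) ?_
  fun_prop

theorem poly_yOf (B q : Polynomial ℕ) : NPC.Poly (yOf B q) := by
  have hn := uPoly_nOf
  have hq : UPoly (fun w => (qP B q).eval (nOf w)) := UPoly.eval hn _
  have hnp := hn.toPoly
  have hqp := hq.toPoly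
  unfold yOf
  refine poly_slice NPC.Poly.id ?_ ?_
  · fun_prop
  · refine UPoly.of_le (n := fun w : List Bool => w.length) ?_ (UPoly.length NPC.Poly.id)
      fun w => Nat.sub_le _ _
    fun_prop

theorem poly_tgt {f : List Bool → List Bool} (hf : NPC.Poly f) {z y : α → List Bool}
    {K n m T N j k : α → ℕ} (hz : NPC.Poly z) (hy : NPC.Poly y) (hK : UPoly K) (hn : UPoly n)
    (hm : NPC.Poly m) (hT : NPC.Poly T) (hN : UPoly N) (hj : NPC.Poly j) (hk : NPC.Poly k) :
    NPC.Poly (fun a => tgt f (z a) (y a) (K a) (n a) (m a) (T a) (N a) (j a) (k a)) := by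
  unfold tgt
  refine NPC.Poly.map hN.range ?_
  have hn' := hn.toPoly
  have hK' := hK.toPoly
  have h1 : NPC.Poly (fun p : α × ℕ => p.2 / (n p.1 * K p.1)) := by fun_prop
  have h2 : NPC.Poly (fun p : α × ℕ => p.2 % (n p.1 * K p.1)) := by fun_prop
  have hj' := hj.comp (NPC.Poly.fst (NPC.Poly.id (α := α × ℕ)))
  refine NPC.Poly.and (by fun_prop) (NPC.Poly.cond ?_ ?_ ?_)
  · exact NPC.Poly.decide_eq h1 hj'
  · exact poly_cellv (poly_gg (hz.comp (NPC.Poly.fst NPC.Poly.id))
      (hK.comp (NPC.Poly.fst NPC.Poly.id)) (hn.comp (NPC.Poly.fst NPC.Poly.id)) hj')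
      (hk.comp (NPC.Poly.fst NPC.Poly.id)) (hy.comp (NPC.Poly.fst NPC.Poly.id))
      (hm.comp (NPC.Poly.fst NPC.Poly.id)) h2
  · exact poly_fcell hf (hz.comp (NPC.Poly.fst NPC.Poly.id))
      (hK.comp (NPC.Poly.fst NPC.Poly.id)) (hn.comp (NPC.Poly.fst NPC.Poly.id))
      (hm.comp (NPC.Poly.fst NPC.Poly.id)) h1 h2

theorem poly_cand (B q : Polynomial ℕ) {f A : List Bool → List Bool} (hf : NPC.Poly f)
    (hA : NPC.Poly A) {w y : α → List Bool} {n N j k : α → ℕ} (hw : NPC.Poly w)
    (hy : NPC.Poly y) (hn : UPoly n) (hN : UPoly N) (hj : NPC.Poly j) (hk : NPC.Poly k) :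
    NPC.Poly (fun a => cand B q f A (w a) (y a) (n a) (N a) (j a) (k a)) := by
  unfold cand
  have hK : UPoly (fun a => (KP B).eval (n a)) := UPoly.eval hn _
  have hm : UPoly (fun a => (mP B).eval (n a)) := UPoly.eval hn _
  have hT : UPoly (fun a => (TP B).eval (n a)) := UPoly.eval hn _
  have hnp := hn.toPoly
  have hNp := hN.toPoly
  refine poly_xs (hA.comp ?_) hK hn hj
  refine NPC.Poly.append (NPC.Poly.map hN.range (NPC.Poly.const true)) ?_
  refine NPC.Poly.cons (NPC.Poly.const false) (NPC.Poly.append ?_ ?_)
  · exact poly_slice hw (by fun_prop) (UPoly.eval hN _)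
  · exact poly_tgt hf (poly_slice hw (by fun_prop) hN) hy hK hn hm.toPoly hT.toPoly hN hj hk

theorem poly_alg (B q : Polynomial ℕ) {f A : List Bool → List Bool} (hf : NPC.Poly f)
    (hA : NPC.Poly A) : NPC.Poly (alg B q f A) := by
  have hn := uPoly_nOf
  have hT : UPoly (fun w => (TP B).eval (nOf w + 1)) := by
    have h1 := UPoly.eval (UPoly.add hn (UPoly.const 1)) (TP B)
    exact h1
  have hy := poly_yOf B q
  unfold alg
  refine NPC.Poly.optGetD (NPC.Poly.head? (NPC.Poly.filter ?_ ?_)) (NPC.Poly.const [])
  · refine NPC.Poly.flatMap hT.range ?_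
    refine NPC.Poly.flatMap (hn.range.comp (NPC.Poly.fst NPC.Poly.id)) ?_
    have hK : UPoly (fun w => nOf w * (KP B).eval (nOf w) + 1) :=
      UPoly.add (UPoly.mul hn (UPoly.eval hn _)) (UPoly.const 1)
    refine NPC.Poly.map (hK.range.comp (NPC.Poly.fst (NPC.Poly.fst NPC.Poly.id))) ?_
    have h1 : NPC.Poly (fun p : ((List Bool × ℕ) × ℕ) × ℕ => p.1.1.1) := by fun_prop
    refine poly_cand B q hf hA h1 (hy.comp h1) (hn.comp h1) ?_ ?_ ?_
    · refine UPoly.of_le (n := fun p : ((List Bool × ℕ) × ℕ) × ℕ =>
        (TP B).eval (nOf p.1.1.1 + 1)) ?_ (hT.comp h1) fun p => min_le_right _ _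
      have := hT.toPoly.comp h1
      fun_prop
    · fun_prop
    · fun_prop
  · fun_prop

end PolyS

/-! ### Correctness -/

theorem slice_append (u v s : List Bool) : slice (u ++ (v ++ s)) u.length v.length = v := by
  unfold slice
  apply List.ext_getElem
  · simp
  · intro i h1 h2
    rw [List.getElem_map, List.getElem_range, List.getD_append_right _ _ _ _ (by omega)]
    have e : u.length + i - u.length = i := by omega
    rw [e, List.getD_append _ _ _ _ h2, List.getD_eq_getElem _ _ h2]

theorem slice_append' (u v s : List Bool) {a l : ℕ} (ha : a = u.length) (hl : l = v.length) :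
    slice (u ++ (v ++ s)) a l = v := by
  subst ha hl
  exact slice_append u v s

theorem slice_end (u v : List Bool) {a l : ℕ} (ha : a = u.length) (hl : l = v.length) :
    slice (u ++ v) a l = v := by
  have := slice_append' u v [] ha hl
  rwa [List.append_nil] at this

theorem nOf_eq (n : ℕ) (s : List Bool) : nOf (List.replicate n true ++ false :: s) = n := by
  set w := List.replicate n true ++ false :: s with hw
  have hwl : w.length = n + (s.length + 1) := by rw [hw]; simp
  have hP : ∀ k, ((List.range w.length).all fun i => decide (k < i) || w.getD i false) = true ↔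
      k < n := by
    intro k
    rw [List.all_eq_true]
    constructor
    · intro h
      by_contra hk
      have := h n (List.mem_range.2 (by omega))
      rw [hw, List.getD_append_right _ _ _ _ (by simp)] at this
      simp at this
      omega
    · intro h i hi
      by_cases hki : k < i
      · simp [hki]
      · have : w.getD i false = true := by
          rw [hw, List.getD_append _ _ _ _ (by simp; omega),
            List.getD_eq_getElem _ _ (by simp; omega), List.getElem_replicate]
        rw [this, Bool.or_true]
  have h := filter_spec (fun k => (List.range w.length).all fun i =>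
    decide (k < i) || w.getD i false) (fun k hk => by
      rw [hP] at hk ⊢; omega) w.length
  unfold nOf
  set c := ((List.range w.length).filter fun k => (List.range w.length).all fun i =>
    decide (k < i) || w.getD i false).length with hc
  have hcl : c ≤ w.length := by
    rw [hc]
    refine (List.length_filter_le _ _).trans ?_
    rw [List.length_range]
  apply le_antisymm
  · by_contra hcon
    push Not at hcon
    have := (h n (by omega)).2 hcon
    rw [hP] at this
    omega
  · rcases Nat.eq_zero_or_pos n with h0 | h0
    · omega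
    · have := (h (n - 1) (by omega)).1 ((hP _).2 (by omega))
      omega

theorem alg_spec (B q : Polynomial ℕ) (f A : List Bool → List Bool) {n : ℕ} {r y : List Bool}
    (hr : r.length = (qP B q).eval n) {N j k : ℕ} (hN : N < (TP B).eval (n + 1)) (hj : j < n)
    (hk : k < n * (KP B).eval n + 1)
    (h : f (cand B q f A (List.replicate n true ++ false :: (r ++ y)) y n N j k) = y) :
    f (alg B q f A (List.replicate n true ++ false :: (r ++ y))) = y := by
  set w := List.replicate n true ++ false :: (r ++ y) with hw
  have hn : nOf w = n := nOf_eq _ _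
  have hy : yOf B q w = y := by
    unfold yOf
    rw [hn, hw]
    have e : List.replicate n true ++ false :: (r ++ y) =
        (List.replicate n true ++ false :: r) ++ y := by simp
    rw [e]
    apply slice_end
    · simp [hr]; omega
    · simp [hr]; omega
  unfold alg
  rw [hn, hy]
  set l := ((List.range ((TP B).eval (n + 1))).flatMap fun N => (List.range n).flatMap fun j =>
    (List.range (n * (KP B).eval n + 1)).map fun k =>
      cand B q f A w y n (min N ((TP B).eval (n + 1))) j k) with hl
  have hmem : cand B q f A w y n N j k ∈ l.filter fun c => decide (f c = y) := by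
    rw [List.mem_filter, hl, List.mem_flatMap]
    refine ⟨⟨N, List.mem_range.2 hN, ?_⟩, by rw [decide_eq_true_iff]; exact h⟩
    rw [List.mem_flatMap]
    refine ⟨j, List.mem_range.2 hj, ?_⟩
    rw [List.mem_map]
    exact ⟨k, List.mem_range.2 hk, by rw [min_eq_left hN.le]⟩
  have hall : ∀ c ∈ l.filter fun c => decide (f c = y), f c = y := by
    intro c hc
    rw [List.mem_filter] at hc
    exact of_decide_eq_true hc.2
  revert hmem hall
  cases l.filter fun c => decide (f c = y) with
  | nil => intro hmem; exact absurd hmem (List.not_mem_nil)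
  | cons c l' =>
    intro _ hall
    exact hall c (List.mem_cons_self)

end Pool.Agent.NPC.L5h57.OW
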