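import Pool.Agent.L5helper57.OW.Twist
import Pool.Agent.L5helper57.AP.Comb

/-!
# Few inputs have no good copy
-/

set_option autoImplicit false

namespace Pool.Agent.NPC.L5h57.OW

open Pool.Agent.NPC Finset

/-- number of ones of a block -/
def onesF {K : ℕ} (w : Fin K → Bool) : ℕ := (univ.filter fun r => w r = true).card

/-- margin of a block -/
def mgF {K : ℕ} (w : Fin K → Bool) : ℕ :=
  if K / 2 < onesF w then onesF w - (K / 2 + 1) else K / 2 - onesF w

theorem card_onesF (K a : ℕ) :
    (univ.filter fun w : Fin K → Bool => onesF w = a).card = K.choose a := by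
  classical
  have hc : (Finset.powersetCard a (univ : Finset (Fin K))).card = K.choose a := by
    rw [Finset.card_powersetCard, Finset.card_fin]
  rw [← hc]
  refine Finset.card_bij (fun w _ => univ.filter fun r => w r = true) ?_ ?_ ?_
  · intro w hw
    rw [Finset.mem_powersetCard]
    exact ⟨Finset.subset_univ _, (Finset.mem_filter.1 hw).2⟩
  · intro w _ w' _ h
    funext r
    have := Finset.ext_iff.1 h r
    simp only [Finset.mem_filter, Finset.mem_univ, true_and] at this
    rw [Bool.eq_iff_iff]
    exact this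
  · intro S hS
    refine ⟨fun r => decide (r ∈ S), ?_, ?_⟩
    · rw [Finset.mem_filter]
      refine ⟨Finset.mem_univ _, ?_⟩
      rw [← (Finset.mem_powersetCard.1 hS).2]
      unfold onesF
      congr 1
      ext r
      simp
    · ext r
      simp

theorem card_bd (κ m : ℕ) :
    (univ.filter fun w : Fin (2 * κ + 1) → Bool => mgF w < m).card ≤
      m * (κ + 1).centralBinom := by
  classical
  have hcb : (κ + 1).centralBinom = 2 * (2 * κ + 1).choose κ := by
    rw [Nat.centralBinom_eq_two_mul_choose]
    have e : 2 * (κ + 1) = (2 * κ + 1) + 1 := by ring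
    rw [e, Nat.choose_succ_succ]
    have e2 : (2 * κ + 1).choose κ.succ = (2 * κ + 1).choose κ := by
      rw [← Nat.choose_symm_of_eq_add]
      simp
      omega
    rw [e2]
    ring
  have hmid : ∀ a, (2 * κ + 1).choose a ≤ (2 * κ + 1).choose κ := by
    intro a
    have := Nat.choose_le_middle a (2 * κ + 1)
    have e : (2 * κ + 1) / 2 = κ := by omega
    rwa [e] at this
  have hsub : (univ.filter fun w : Fin (2 * κ + 1) → Bool => mgF w < m) ⊆
      ((Finset.range m).biUnion fun i =>
        (univ.filter fun w : Fin (2 * κ + 1) → Bool => onesF w = κ + 1 + i)) ∪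
      ((Finset.range m).biUnion fun i =>
        (univ.filter fun w : Fin (2 * κ + 1) → Bool => onesF w = κ - i)) := by
    intro w hw
    rw [Finset.mem_filter] at hw
    have h := hw.2
    unfold mgF at h
    rw [Finset.mem_union, Finset.mem_biUnion, Finset.mem_biUnion]
    have e : (2 * κ + 1) / 2 = κ := by omega
    rw [e] at h
    split_ifs at h with h1
    · left
      refine ⟨onesF w - (κ + 1), Finset.mem_range.2 h, ?_⟩
      rw [Finset.mem_filter]
      exact ⟨Finset.mem_univ _, by omega⟩
    · right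
      refine ⟨κ - onesF w, Finset.mem_range.2 h, ?_⟩
      rw [Finset.mem_filter]
      exact ⟨Finset.mem_univ _, by omega⟩
  refine (Finset.card_le_card hsub).trans ((Finset.card_union_le _ _).trans ?_)
  have h1 : ∀ g : ℕ → ℕ, ((Finset.range m).biUnion fun i =>
      (univ.filter fun w : Fin (2 * κ + 1) → Bool => onesF w = g i)).card ≤
      m * (2 * κ + 1).choose κ := by
    intro g
    refine Finset.card_biUnion_le.trans ?_
    calc ∑ i ∈ Finset.range m,
          (univ.filter fun w : Fin (2 * κ + 1) → Bool => onesF w = g i).card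
        ≤ ∑ _i ∈ Finset.range m, (2 * κ + 1).choose κ := by
          refine Finset.sum_le_sum fun i _ => ?_
          rw [card_onesF]
          exact hmid _
      _ = m * (2 * κ + 1).choose κ := by
          rw [Finset.sum_const, Finset.card_range, smul_eq_mul]
  have h2 := h1 (fun i => κ + 1 + i)
  have h3 := h1 (fun i => κ - i)
  calc _ ≤ m * (2 * κ + 1).choose κ + m * (2 * κ + 1).choose κ := Nat.add_le_add h2 h3
    _ = m * (κ + 1).centralBinom := by rw [hcb]; ring

theorem card_bd_le (n m κ : ℕ) (hκ : κ = 8 * n ^ 2 * m ^ 2) :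
    2 * n * (univ.filter fun w : Fin (2 * κ + 1) → Bool => mgF w < m).card ≤
      2 ^ (2 * κ + 1) := by
  have h1 := card_bd κ m
  have h2 := Pool.Agent.L5helper57.AP.centralBinom_sq_le (κ + 1)
  have h3 : n * m * (κ + 1).centralBinom ≤ 4 ^ κ := by
    have h4 : (n * m * (κ + 1).centralBinom) ^ 2 ≤ (4 ^ κ) ^ 2 := by
      have h5 : 16 * (n * m * (κ + 1).centralBinom) ^ 2 ≤ 16 * (4 ^ κ) ^ 2 := by
        calc 16 * (n * m * (κ + 1).centralBinom) ^ 2
            = (κ + 1).centralBinom ^ 2 * (16 * n ^ 2 * m ^ 2) := by ring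
          _ ≤ (κ + 1).centralBinom ^ 2 * (2 * (κ + 1) + 1) := by
              refine Nat.mul_le_mul_left _ ?_
              have : 16 * n ^ 2 * m ^ 2 = 2 * κ := by rw [hκ]; ring
              omega
          _ ≤ 16 ^ (κ + 1) := h2
          _ = 16 * (4 ^ κ) ^ 2 := by
              rw [pow_succ, mul_comm]
              congr 1
              rw [show (16 : ℕ) = 4 ^ 2 by norm_num, ← pow_mul, ← pow_mul, mul_comm]
      omega
    exact (Nat.pow_le_pow_iff_left (by norm_num)).1 h4
  calc 2 * n * (univ.filter fun w : Fin (2 * κ + 1) → Bool => mgF w < m).card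
      ≤ 2 * n * (m * (κ + 1).centralBinom) := Nat.mul_le_mul_left _ h1
    _ = 2 * (n * m * (κ + 1).centralBinom) := by ring
    _ ≤ 2 * 4 ^ κ := Nat.mul_le_mul_left _ h3
    _ = 2 ^ (2 * κ + 1) := by
        rw [show (4 : ℕ) = 2 ^ 2 by norm_num, ← pow_mul]
        ring

theorem card_blk (n K : ℕ) (S : Finset (Fin K → Bool)) (b : Fin n) :
    (univ.filter fun u : Fin n → Fin K → Bool => u b ∈ S).card * 2 ^ K =
      S.card * 2 ^ (n * K) := by
  classical
  have h1 : (univ.filter fun u : Fin n → Fin K → Bool => u b ∈ S) =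
      Fintype.piFinset (fun b' : Fin n => if b' = b then S else univ) := by
    ext u
    rw [Finset.mem_filter, Fintype.mem_piFinset]
    constructor
    · intro h b'
      split_ifs with hb
      · rw [hb]; exact h.2
      · exact Finset.mem_univ _
    · intro h
      have := h b
      rw [if_pos rfl] at this
      exact ⟨Finset.mem_univ _, this⟩
  rw [h1, Fintype.card_piFinset]
  have h2 : ∏ a : Fin n, (if a = b then S else univ : Finset (Fin K → Bool)).card =
      S.card * (2 ^ K) ^ (n - 1) := by
    rw [← Finset.mul_prod_erase _ _ (Finset.mem_univ b), if_pos rfl]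
    congr 1
    rw [Finset.prod_congr rfl (g := fun _ => 2 ^ K)]
    · rw [Finset.prod_const, Finset.card_erase_of_mem (Finset.mem_univ _), Finset.card_fin]
    · intro a ha
      rw [if_neg (Finset.ne_of_mem_erase ha), Finset.card_univ]
      simp
  rw [h2]
  have hn : 0 < n := b.pos
  have e : n * K = K * (n - 1) + K := by
    obtain ⟨n', rfl⟩ := Nat.exists_eq_add_of_lt hn
    simp
    ring
  rw [e, pow_add, pow_mul]
  ring

theorem card_copy (n m κ : ℕ) (hκ : κ = 8 * n ^ 2 * m ^ 2) :
    2 * (univ.filter fun u : Fin n → Fin (2 * κ + 1) → Bool => ∃ b, mgF (u b) < m).card ≤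
      2 ^ (n * (2 * κ + 1)) := by
  classical
  set K := 2 * κ + 1 with hK
  set S := (univ.filter fun w : Fin K → Bool => mgF w < m) with hS
  have h1 : (univ.filter fun u : Fin n → Fin K → Bool => ∃ b, mgF (u b) < m) ⊆
      (univ : Finset (Fin n)).biUnion fun b =>
        (univ.filter fun u : Fin n → Fin K → Bool => u b ∈ S) := by
    intro u hu
    rw [Finset.mem_filter] at hu
    obtain ⟨b, hb⟩ := hu.2
    rw [Finset.mem_biUnion]
    refine ⟨b, Finset.mem_univ _, ?_⟩
    rw [Finset.mem_filter, hS, Finset.mem_filter]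
    exact ⟨Finset.mem_univ _, Finset.mem_univ _, hb⟩
  have h2 : (univ.filter fun u : Fin n → Fin K → Bool => ∃ b, mgF (u b) < m).card * 2 ^ K ≤
      n * (S.card * 2 ^ (n * K)) := by
    calc _ ≤ (∑ b : Fin n, (univ.filter fun u : Fin n → Fin K → Bool => u b ∈ S).card) *
          2 ^ K := Nat.mul_le_mul_right _ ((Finset.card_le_card h1).trans Finset.card_biUnion_le)
      _ = ∑ b : Fin n, (univ.filter fun u : Fin n → Fin K → Bool => u b ∈ S).card * 2 ^ K := by
          rw [Finset.sum_mul]
      _ = ∑ _b : Fin n, S.card * 2 ^ (n * K) :=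
          Finset.sum_congr rfl fun b _ => card_blk n K S b
      _ = n * (S.card * 2 ^ (n * K)) := by
          rw [Finset.sum_const, Finset.card_fin, smul_eq_mul]
  have h3 := card_bd_le n m κ hκ
  rw [← hK, ← hS] at h3
  have hpos : 0 < 2 ^ K := by positivity
  have h4 : 2 * (univ.filter fun u : Fin n → Fin K → Bool => ∃ b, mgF (u b) < m).card * 2 ^ K ≤
      2 ^ (n * K) * 2 ^ K := by
    calc _ = 2 * ((univ.filter fun u : Fin n → Fin K → Bool => ∃ b, mgF (u b) < m).card *
          2 ^ K) := by ring
      _ ≤ 2 * (n * (S.card * 2 ^ (n * K))) := Nat.mul_le_mul_left _ h2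
      _ = (2 * n * S.card) * 2 ^ (n * K) := by ring
      _ ≤ 2 ^ K * 2 ^ (n * K) := Nat.mul_le_mul_right _ h3
      _ = 2 ^ (n * K) * 2 ^ K := by ring
  exact Nat.le_of_mul_le_mul_right h4 hpos

/-- the block `b` of the copy `j` -/
def blkOf (K n : ℕ) {N : ℕ} (z : Fin N → Bool) (j b : ℕ) : Fin K → Bool := fun r =>
  (List.ofFn z).getD ((j * n + b) * K + r) false

theorem mg_blkOf (K n : ℕ) {N : ℕ} (z : Fin N → Bool) (j b : ℕ) :
    mg (List.ofFn z) K (j * n + b) = mgF (blkOf K n z j b) := by
  have : ones (List.ofFn z) K (j * n + b) = onesF (blkOf K n z j b) := by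
    rw [ones_eq]
    unfold onesF blkOf
    rw [← Finset.card_map Fin.valEmbedding]
    congr 1
    ext r
    simp only [Finset.mem_map, Finset.mem_filter, Finset.mem_univ, true_and, Finset.mem_range,
      Fin.valEmbedding_apply]
    constructor
    · rintro ⟨h1, h2⟩
      exact ⟨⟨r, h1⟩, h2, rfl⟩
    · rintro ⟨r', h1, rfl⟩
      exact ⟨r'.2, h1⟩
  unfold mg mgF
  rw [this]

open Classical in
theorem bad_count (n m κ N : ℕ) (hκ : κ = 8 * n ^ 2 * (6 * m) ^ 2)
    (hT : n * (n * (2 * κ + 1)) ≤ N) :
    (univ.filter fun z : Fin N → Bool => ∀ j < n,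
      ¬ Good (List.ofFn z) (2 * κ + 1) n m j).card * 2 ^ n ≤ 2 ^ N := by
  classical
  set K := 2 * κ + 1 with hK
  set T := n * (n * K) with hTd
  set C := (univ.filter fun u : Fin n → Fin K → Bool => ∃ b, mgF (u b) < 6 * m) with hC
  have h1 : (univ.filter fun z : Fin N → Bool => ∀ j < n,
      ¬ Good (List.ofFn z) K n m j).card ≤
      ((Fintype.piFinset fun _ : Fin n => C) ×ˢ (univ : Finset (Fin (N - T) → Bool))).card := by
    refine Finset.card_le_card_of_injOn (fun z =>
      ((fun (j : Fin n) (b : Fin n) => blkOf K n z j b),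
        (fun i : Fin (N - T) => (List.ofFn z).getD (T + i) false))) ?_ ?_
    · intro z hz
      have hz2 := (Finset.mem_filter.1 (Finset.mem_coe.1 hz)).2
      rw [Finset.mem_coe, Finset.mem_product]
      refine ⟨?_, Finset.mem_univ _⟩
      rw [Fintype.mem_piFinset]
      intro j
      rw [hC, Finset.mem_filter]
      refine ⟨Finset.mem_univ _, ?_⟩
      have h2 := hz2 j j.2
      unfold Good at h2
      push Not at h2
      obtain ⟨b, hb, h3⟩ := h2
      refine ⟨⟨b, hb⟩, ?_⟩
      rw [mg_blkOf] at h3
      exact h3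
    · intro z _ z' _ h
      rw [Prod.mk.injEq] at h
      obtain ⟨hA, hB⟩ := h
      funext k
      have key : ∀ w : Fin N → Bool, (List.ofFn w).getD k false = w k := by
        intro w
        rw [getD_ofFn, dif_pos k.2]
      rw [← key z, ← key z']
      by_cases hk : (k : ℕ) < T
      · have hK0 : 0 < K := by omega
        have hn0 : 0 < n := by
          rcases Nat.eq_zero_or_pos n with h | h
          · rw [hTd, h] at hk
            omega
          · exact h
        set s := (k : ℕ) / K with hs
        have e1 : s * K + k % K = k := Nat.div_add_mod' k K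
        have e2 : s / n * n + s % n = s := Nat.div_add_mod' s n
        have hsn : s < n * n := by
          rw [hs, Nat.div_lt_iff_lt_mul hK0]
          calc (k : ℕ) < T := hk
            _ = n * n * K := by rw [hTd]; ring
        have hj : s / n < n := by
          rw [Nat.div_lt_iff_lt_mul hn0]
          exact hsn
        have h3 := congrFun (congrFun (congrFun hA ⟨s / n, hj⟩) ⟨s % n, Nat.mod_lt _ hn0⟩)
          ⟨k % K, Nat.mod_lt _ hK0⟩
        unfold blkOf at h3
        simp only [e2, e1] at h3
        exact h3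
      · have h3 := congrFun hB ⟨k - T, by omega⟩
        simp only at h3
        have e : T + (k - T) = k := by omega
        rwa [e] at h3
  have h2 : 2 * C.card ≤ 2 ^ (n * K) := card_copy n (6 * m) κ hκ
  have h3 : C.card ^ n * 2 ^ n ≤ 2 ^ T := by
    calc C.card ^ n * 2 ^ n = (2 * C.card) ^ n := by rw [mul_pow]; ring
      _ ≤ (2 ^ (n * K)) ^ n := Nat.pow_le_pow_left h2 _
      _ = 2 ^ T := by rw [← pow_mul, hTd]; congr 1; ring
  rw [Finset.card_product, Fintype.card_piFinset, Finset.prod_const, Finset.card_fin,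
    Finset.card_univ] at h1
  have h4 : Fintype.card (Fin (N - T) → Bool) = 2 ^ (N - T) := by simp
  rw [h4] at h1
  calc (univ.filter fun z : Fin N → Bool => ∀ j < n,
        ¬ Good (List.ofFn z) K n m j).card * 2 ^ n
      ≤ (C.card ^ n * 2 ^ (N - T)) * 2 ^ n := Nat.mul_le_mul_right _ h1
    _ = (C.card ^ n * 2 ^ n) * 2 ^ (N - T) := by ring
    _ ≤ 2 ^ T * 2 ^ (N - T) := Nat.mul_le_mul_right _ h3
    _ = 2 ^ N := by rw [← pow_add]; congr 1; omega

end Pool.Agent.NPC.L5h57.OW
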