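import Pool.Agent.L5helper57.OW.Algo
import Pool.Agent.L5helper57.OW.Bad

/-!
# The function with margins is one-way
-/

set_option autoImplicit false

namespace Pool.Agent.NPC.L5h57.OW

open Pool.Agent.NPC Finset Filter

theorem tgt_eq (B : Polynomial ℕ) (f : List Bool → List Bool) {N n K m j : ℕ} (hn : nn B N = n)
    (hK : (KP B).eval n = K) (hm : (mP B).eval n = m) (hj : j < n)
    (x : Fin n → Bool) (z : Fin N → Bool) :
    tgt f (List.ofFn z) (f (List.ofFn x)) K n m ((TP B).eval n) N j
      (kk (List.ofFn (tw K n j x z)) K n j) = ff B f (List.ofFn (tw K n j x z)) := by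
  have hKo := KP_odd B n
  rw [hK] at hKo
  have hT := (nn_spec B N).1
  rw [hn] at hT
  have hTe := TP_eval B n
  rw [hK] at hTe
  have hlz : (List.ofFn (tw K n j x z)).length = N := by simp
  unfold tgt ff
  rw [hlz, hn, hK, hm]
  refine List.map_congr_left fun idx hidx => ?_
  by_cases hidT : idx < (TP B).eval n
  · rw [decide_eq_true hidT, Bool.true_and, Bool.true_and]
    have hj' : idx / (n * K) < n := by
      have hpos : 0 < n * K := by
        rcases Nat.eq_zero_or_pos (n * K) with h | h
        · rw [hTe, h] at hidT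
          omega
        · exact h
      rw [Nat.div_lt_iff_lt_mul hpos, ← hTe]
      exact hidT
    rw [fcell_tw f hKo (by rw [← hTe]; exact hT) hj x z hj']
    by_cases h : idx / (n * K) = j
    · rw [if_pos h, decide_eq_true h, cond_true]
    · rw [if_neg h, decide_eq_false h, cond_false]
  · rw [decide_eq_false hidT, Bool.false_and, Bool.false_and]

/-- The candidate is a preimage if the inverter succeeds on the twisted input. -/
theorem cand_good {f A : List Bool → List Bool} {B : Polynomial ℕ}
    (hB : ∀ x, (f x).length ≤ B.eval x.length) (q : Polynomial ℕ) {N n K m j : ℕ}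
    (hn : nn B N = n) (hK : (KP B).eval n = K) (hm : (mP B).eval n = m) (hj : j < n)
    (x : Fin n → Bool) (z : Fin N → Bool) (r : Fin (q.eval N) → Bool)
    (rest : List Bool)
    (hg : Good (List.ofFn (tw K n j x z)) K n m j)
    (h : ff B f (A (List.replicate N true ++ false :: (List.ofFn r ++
      ff B f (List.ofFn (tw K n j x z))))) = ff B f (List.ofFn (tw K n j x z))) :
    f (cand B q f A (List.replicate n true ++ false ::
      ((List.ofFn z ++ (List.ofFn r ++ rest)) ++ f (List.ofFn x))) (f (List.ofFn x)) n N j
        (kk (List.ofFn (tw K n j x z)) K n j)) = f (List.ofFn x) := by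
  have hKo := KP_odd B n
  rw [hK] at hKo
  have hT := (nn_spec B N).1
  rw [hn, TP_eval, hK] at hT
  have e1 : slice (List.replicate n true ++ false ::
      ((List.ofFn z ++ (List.ofFn r ++ rest)) ++ f (List.ofFn x))) (n + 1) N = List.ofFn z := by
    have e : List.replicate n true ++ false ::
      ((List.ofFn z ++ (List.ofFn r ++ rest)) ++ f (List.ofFn x)) =
      (List.replicate n true ++ [false]) ++ (List.ofFn z ++ ((List.ofFn r ++ rest) ++
        f (List.ofFn x))) := by simp
    rw [e]
    exact slice_append' _ _ _ (by simp) (by simp)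
  have e2 : slice (List.replicate n true ++ false ::
      ((List.ofFn z ++ (List.ofFn r ++ rest)) ++ f (List.ofFn x))) (n + 1 + N) (q.eval N) =
      List.ofFn r := by
    have e : List.replicate n true ++ false ::
      ((List.ofFn z ++ (List.ofFn r ++ rest)) ++ f (List.ofFn x)) =
      ((List.replicate n true ++ [false]) ++ List.ofFn z) ++ (List.ofFn r ++ (rest ++
        f (List.ofFn x))) := by simp
    rw [e]
    exact slice_append' _ _ _ (by simp; omega) (by simp)
  have e3 : (List.range N).map (fun _ => true) = List.replicate N true := by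
    rw [List.map_const', List.length_range]
  unfold cand
  rw [e1, e2, e3, hK, hm, tgt_eq B f hn hK hm hj x z]
  set w := tw K n j x z with hw
  set z' := A (List.replicate N true ++ false :: (List.ofFn r ++ ff B f (List.ofFn w))) with hz'
  have hlw : (List.ofFn w).length = N := by simp
  have hl : z'.length = (List.ofFn w).length := by
    rw [← ff_length B f z', h, ff_length]
  have h1 := read hB hl (j := j) (by rw [hlw, hn]; exact hj) (by rw [hlw, hn, hK, hm]; exact hg) h
  rw [hlw, hn, hK] at h1
  rw [h1, xs_eq, hw, xf_tw hKo hj hT]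

theorem ofFn_getD_eq {q : ℕ} (l : List Bool) (h : l.length = q) :
    List.ofFn (fun i : Fin q => l.getD i false) = l := by
  apply List.ext_getElem
  · simp [h]
  · intro i h1 h2
    rw [List.getElem_ofFn, List.getD_eq_getElem _ _ h2]

open Classical in
theorem count_j {f A : List Bool → List Bool} {B : Polynomial ℕ}
    (hB : ∀ x, (f x).length ≤ B.eval x.length) (q : Polynomial ℕ) {N n K m j : ℕ}
    (hn : nn B N = n) (hK : (KP B).eval n = K) (hm : (mP B).eval n = m) (hj : j < n)
    {R : ℕ} (hR : N + (q.eval N + R) = (qP B q).eval n) :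
    2 ^ n * ((univ.filter fun p : (Fin N → Bool) × (Fin (q.eval N) → Bool) =>
      ff B f (A (List.replicate N true ++ false :: (List.ofFn p.2 ++ ff B f (List.ofFn p.1)))) =
        ff B f (List.ofFn p.1) ∧ Good (List.ofFn p.1) K n m j).card * 2 ^ R) ≤
    invCount f (alg B q f A) n ((qP B q).eval n) := by
  set Q := (qP B q).eval n with hQ
  have hKo := KP_odd B n
  rw [hK] at hKo
  have hT := (nn_spec B N).1
  rw [hn, TP_eval, hK] at hT
  set S := (univ.filter fun p : (Fin N → Bool) × (Fin (q.eval N) → Bool) =>
      ff B f (A (List.replicate N true ++ false :: (List.ofFn p.2 ++ ff B f (List.ofFn p.1)))) =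
        ff B f (List.ofFn p.1) ∧ Good (List.ofFn p.1) K n m j) with hS
  have hcard : ((univ : Finset (Fin n → Bool)) ×ˢ (S ×ˢ (univ : Finset (Fin R → Bool)))).card =
      2 ^ n * (S.card * 2 ^ R) := by
    rw [Finset.card_product, Finset.card_product, Finset.card_univ, Finset.card_univ]
    simp
  rw [← hcard]
  unfold invCount
  refine Finset.card_le_card_of_injOn (fun p => (xf K n j p.2.1.1, fun i : Fin Q =>
    (List.ofFn (tw K n j p.1 p.2.1.1) ++ (List.ofFn p.2.1.2 ++ List.ofFn p.2.2)).getD i false))
    ?_ ?_
  · rintro ⟨x, ⟨z, r⟩, rest⟩ hp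
    rw [Finset.mem_coe, Finset.mem_product, Finset.mem_product] at hp
    have hp2 := hp.2.1
    simp only at hp2
    rw [hS, Finset.mem_filter] at hp2
    obtain ⟨_, h1, h2⟩ := hp2
    rw [Finset.mem_coe, Finset.mem_filter]
    refine ⟨Finset.mem_univ _, ?_⟩
    have hlen : (List.ofFn (tw K n j x z) ++ (List.ofFn r ++ List.ofFn rest)).length = Q := by
      simp [← hR]
    simp only
    rw [ofFn_getD_eq _ hlen]
    have htt := tw_tw hKo hj hT x z
    have hlt := (nn_spec B N).2
    rw [hn] at hlt
    have hkk := kk_le (List.ofFn z) K n j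
    refine alg_spec B q f A (k := kk (List.ofFn z) K n j) (hlen.trans hQ) hlt hj
      (by rw [hK]; omega) ?_
    rw [← htt]
    have key := cand_good (A := A) hB q hn hK hm hj (xf K n j z) (tw K n j x z) r
      (List.ofFn rest) (by rw [htt]; exact h2) (by rw [htt]; exact h1)
    rw [htt] at key ⊢
    exact key
  · rintro ⟨x, ⟨z, r⟩, rest⟩ hp ⟨x', ⟨z', r'⟩, rest'⟩ hp' h
    simp only [Prod.mk.injEq] at h
    obtain ⟨h1, h2⟩ := h
    have hlen : (List.ofFn (tw K n j x z) ++ (List.ofFn r ++ List.ofFn rest)).length = Q := by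
      simp [← hR]
    have hlen' : (List.ofFn (tw K n j x' z') ++ (List.ofFn r' ++ List.ofFn rest')).length = Q := by
      simp [← hR]
    have h3 : List.ofFn (tw K n j x z) ++ (List.ofFn r ++ List.ofFn rest) =
        List.ofFn (tw K n j x' z') ++ (List.ofFn r' ++ List.ofFn rest') := by
      rw [← ofFn_getD_eq _ hlen, ← ofFn_getD_eq _ hlen', h2]
    obtain ⟨h4, h5⟩ := List.append_inj h3 (by simp)
    obtain ⟨h6, h7⟩ := List.append_inj h5 (by simp)
    have h4' := List.ofFn_injective h4
    have h6' := List.ofFn_injective h6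
    have h7' := List.ofFn_injective h7
    have hz : z = z' := by
      have := tw_tw hKo hj hT x z
      rw [h1, h4', tw_tw hKo hj hT x' z'] at this
      exact this.symm
    have hx : x = x' := by
      have := xf_tw hKo hj hT x z
      rw [h4', xf_tw hKo hj hT x' z'] at this
      exact this.symm
    rw [hz, hx, h6', h7']

theorem count_all {f A : List Bool → List Bool} {B : Polynomial ℕ}
    (hB : ∀ x, (f x).length ≤ B.eval x.length) (q : Polynomial ℕ) {N n : ℕ} (hn : nn B N = n)
    {R : ℕ} (hR : N + (q.eval N + R) = (qP B q).eval n) :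
    2 ^ n * 2 ^ R * invCount (ff B f) A N (q.eval N) ≤
      n * invCount f (alg B q f A) n ((qP B q).eval n) +
        2 ^ R * 2 ^ (N + q.eval N) := by
  classical
  set K := (KP B).eval n with hK
  set m := (mP B).eval n with hm
  have hKo := KP_odd B n
  rw [← hK] at hKo
  have hT := (nn_spec B N).1
  rw [hn, TP_eval, ← hK] at hT
  set S : ℕ → Finset ((Fin N → Bool) × (Fin (q.eval N) → Bool)) := fun j =>
    (univ.filter fun p : (Fin N → Bool) × (Fin (q.eval N) → Bool) =>
      ff B f (A (List.replicate N true ++ false :: (List.ofFn p.2 ++ ff B f (List.ofFn p.1)))) =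
        ff B f (List.ofFn p.1) ∧ Good (List.ofFn p.1) K n m j) with hS
  set Bd := (univ.filter fun z : Fin N → Bool => ∀ j < n, ¬ Good (List.ofFn z) K n m j) with hBd
  have h1 : invCount (ff B f) A N (q.eval N) ≤
      (∑ j ∈ Finset.range n, (S j).card) + Bd.card * 2 ^ q.eval N := by
    unfold invCount
    calc _ ≤ (((Finset.range n).biUnion S) ∪
          (Bd ×ˢ (univ : Finset (Fin (q.eval N) → Bool)))).card := by
          apply Finset.card_le_card
          intro p hp
          rw [Finset.mem_filter] at hp
          rw [Finset.mem_union, Finset.mem_biUnion]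
          by_cases h : ∃ j < n, Good (List.ofFn p.1) K n m j
          · left
            obtain ⟨j, hj, hg⟩ := h
            refine ⟨j, Finset.mem_range.2 hj, ?_⟩
            rw [hS]
            simp only
            rw [Finset.mem_filter]
            exact ⟨Finset.mem_univ _, hp.2, hg⟩
          · right
            rw [Finset.mem_product, hBd, Finset.mem_filter]
            refine ⟨⟨Finset.mem_univ _, ?_⟩, Finset.mem_univ _⟩
            intro j hj hg
            exact h ⟨j, hj, hg⟩
      _ ≤ ((Finset.range n).biUnion S).card +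
          (Bd ×ˢ (univ : Finset (Fin (q.eval N) → Bool))).card := Finset.card_union_le _ _
      _ ≤ _ := by
          refine Nat.add_le_add Finset.card_biUnion_le ?_
          rw [Finset.card_product, Finset.card_univ]
          simp
  have h2 : Bd.card * 2 ^ n ≤ 2 ^ N := by
    have := bad_count n m (8 * n ^ 2 * (6 * m) ^ 2) N rfl (by rw [← hKo]; exact hT)
    rw [← hKo] at this
    convert this
  have h3 : ∀ j ∈ Finset.range n, 2 ^ n * ((S j).card * 2 ^ R) ≤
      invCount f (alg B q f A) n ((qP B q).eval n) := by
    intro j hj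
    have := count_j (A := A) hB q hn hK.symm hm.symm (Finset.mem_range.1 hj) hR
    convert this
  calc 2 ^ n * 2 ^ R * invCount (ff B f) A N (q.eval N)
      ≤ 2 ^ n * 2 ^ R * ((∑ j ∈ Finset.range n, (S j).card) + Bd.card * 2 ^ q.eval N) :=
        Nat.mul_le_mul_left _ h1
    _ = (∑ j ∈ Finset.range n, 2 ^ n * ((S j).card * 2 ^ R)) +
        2 ^ R * ((Bd.card * 2 ^ n) * 2 ^ q.eval N) := by
        rw [mul_add, Finset.mul_sum]
        congr 1
        · refine Finset.sum_congr rfl fun j _ => ?_
          ring
        · ring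
    _ ≤ (∑ _j ∈ Finset.range n, invCount f (alg B q f A) n ((qP B q).eval n)) +
        2 ^ R * (2 ^ N * 2 ^ q.eval N) := by
        refine Nat.add_le_add (Finset.sum_le_sum h3) ?_
        exact Nat.mul_le_mul_left _ (Nat.mul_le_mul_right _ h2)
    _ = _ := by
        rw [Finset.sum_const, Finset.card_range, smul_eq_mul, pow_add]

end Pool.Agent.NPC.L5h57.OW
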