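import Pool.Agent.H622R2.CoNP
import Pool.Agent.R544.Util

/-!
# One-way functions, and the function with margins
-/

set_option autoImplicit false

namespace Pool.Agent.NPC.L5h57.OW

open Pool.Agent.NPC Filter

/-- The number of pairs of an input `x` of length `n` and a string `r` of `q` coin tosses for which
the algorithm `A`, given `1^n`, `r` and `f x`, finds a preimage of `f x`. -/
def invCount (f A : List Bool → List Bool) (n q : ℕ) : ℕ :=
  (Finset.univ.filter fun p : (Fin n → Bool) × (Fin q → Bool) =>
    f (A (List.replicate n true ++ false :: (List.ofFn p.2 ++ f (List.ofFn p.1)))) =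
      f (List.ofFn p.1)).card

/-- `f` is a one-way function: it is computable in polynomial time, and every polynomial-time
algorithm with polynomially many coin tosses finds a preimage of `f x`, for a random `x` of length
`n`, only with a probability that is eventually smaller than `1 / n ^ c`, for every `c`. -/
def OneWay (f : List Bool → List Bool) : Prop :=
  PolyTime f ∧ ∀ A : List Bool → List Bool, PolyTime A → ∀ (q : Polynomial ℕ) (c : ℕ),
    ∀ᶠ n in atTop, invCount f A n (q.eval n) * n ^ c < 2 ^ (n + q.eval n)

/-! ### The parameters -/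

/-- period of the code -/
noncomputable def mP (B : Polynomial ℕ) : Polynomial ℕ := 2 * B + 2

/-- length of a block -/
noncomputable def KP (B : Polynomial ℕ) : Polynomial ℕ :=
  16 * Polynomial.X ^ 2 * (6 * mP B) ^ 2 + 1

/-- number of bits which are used -/
noncomputable def TP (B : Polynomial ℕ) : Polynomial ℕ :=
  Polynomial.X * (Polynomial.X * KP B)

/-- the parameter for the input length `N` -/
noncomputable def nn (B : Polynomial ℕ) (N : ℕ) : ℕ :=
  ((List.range N).filter fun k => decide ((TP B).eval (k + 1) ≤ N)).length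

theorem filter_spec (P : ℕ → Bool) (hP : ∀ k, P (k + 1) = true → P k = true) (N : ℕ) :
    ∀ k < N, P k = true ↔ k < ((List.range N).filter P).length := by
  have hdown : ∀ d k, P (k + d) = true → P k = true := by
    intro d
    induction d with
    | zero => intro k h; exact h
    | succ d ih => intro k h; exact ih k (hP _ h)
  induction N with
  | zero => intro k hk; omega
  | succ N ih =>
    intro k hk
    rw [List.range_succ, List.filter_append]
    by_cases hN : P N = true
    · have hall : ∀ k ≤ N, P k = true := by
        intro k hk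
        obtain ⟨d, rfl⟩ := Nat.exists_eq_add_of_le hk
        exact hdown d k hN
      have h1 : (List.range N).filter P = List.range N := by
        rw [List.filter_eq_self]
        intro k hk
        exact hall k (List.mem_range.1 hk).le
      have h2 : [N].filter P = [N] := by simp [hN]
      rw [h1, h2, List.length_append, List.length_range]
      simp only [List.length_cons, List.length_nil]
      exact ⟨fun _ => by omega, fun _ => hall k (by omega)⟩
    · have h2 : [N].filter P = [] := by simp [hN]
      rw [h2, List.append_nil]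
      have hle : ((List.range N).filter P).length ≤ N := by
        refine (List.length_filter_le _ _).trans ?_
        rw [List.length_range]
      rcases Nat.lt_succ_iff_lt_or_eq.1 hk with h | rfl
      · exact ih k h
      · exact ⟨fun h => absurd h hN, fun h => by omega⟩

theorem le_TP (B : Polynomial ℕ) (n : ℕ) : n ≤ (TP B).eval n := by
  unfold TP KP
  simp only [Polynomial.eval_mul, Polynomial.eval_X, Polynomial.eval_add, Polynomial.eval_pow,
    Polynomial.eval_ofNat, Polynomial.eval_one]
  nlinarith [Nat.zero_le (n * (n * (16 * n ^ 2 * (6 * (mP B).eval n) ^ 2)))]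

theorem nn_le (B : Polynomial ℕ) (N : ℕ) : nn B N ≤ N := by
  unfold nn
  refine (List.length_filter_le _ _).trans ?_
  rw [List.length_range]

theorem nn_spec (B : Polynomial ℕ) (N : ℕ) :
    (TP B).eval (nn B N) ≤ N ∧ N < (TP B).eval (nn B N + 1) := by
  have h := filter_spec (fun k => decide ((TP B).eval (k + 1) ≤ N)) (fun k hk => by
    rw [decide_eq_true_iff] at hk ⊢
    exact (eval_mono (TP B) (by omega)).trans hk) N
  have hle := nn_le B N
  constructor
  · rcases Nat.eq_zero_or_pos (nn B N) with h0 | h0
    · rw [h0]
      unfold TP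
      simp
    · have h1 := (h (nn B N - 1) (by omega)).2 (by
        change nn B N - 1 < nn B N
        omega)
      rw [decide_eq_true_iff] at h1
      have e : nn B N - 1 + 1 = nn B N := by omega
      rwa [e] at h1
  · rcases Nat.lt_or_ge (nn B N) N with h1 | h1
    · by_contra hcon
      push Not at hcon
      have h2 := (h (nn B N) h1).1 (by rw [decide_eq_true_iff]; exact hcon)
      exact absurd h2 (lt_irrefl _)
    · have h2 : nn B N = N := le_antisymm hle h1
      rw [h2]
      exact lt_of_lt_of_le (Nat.lt_succ_self N) (le_TP B (N + 1))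

/-! ### Blocks -/

/-- number of ones in the block `s` -/
def ones (z : List Bool) (K s : ℕ) : ℕ :=
  ((List.range K).filter fun r => z.getD (s * K + r) false).length

/-- majority of the block -/
def mj (z : List Bool) (K s : ℕ) : Bool := decide (K / 2 < ones z K s)

/-- margin of the block -/
def mg (z : List Bool) (K s : ℕ) : ℕ :=
  if K / 2 < ones z K s then ones z K s - (K / 2 + 1) else K / 2 - ones z K s

/-- the input of `f` coded by the copy `j` -/
def xs (z : List Bool) (K n j : ℕ) : List Bool :=
  (List.range n).map fun b => mj z K (j * n + b)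

/-- all margins of the copy `j` are larger than `i` -/
def vis (z : List Bool) (K n j i : ℕ) : Bool :=
  (List.range n).all fun b => decide (i < mg z K (j * n + b))

/-- the smallest margin of the copy `j` -/
def gg (z : List Bool) (K n j : ℕ) : ℕ :=
  ((List.range K).filter fun i => vis z K n j i).length

/-- the number of ones of the copy `j` -/
def kk (z : List Bool) (K n j : ℕ) : ℕ :=
  ((List.range n).map fun b => ones z K (j * n + b)).sum

/-- the code of `y`, bit `i` -/
def wb (y : List Bool) (m i : ℕ) : Bool :=
  if i + 1 = m then true else (y.flatMap fun b => [true, b]).getD i false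

/-- an output bit: ones, then a window of length about `g` in which the code of `y` is visible,
then zeros; the window moves with `k` -/
def cellv (g k : ℕ) (y : List Bool) (m i : ℕ) : Bool :=
  decide (2 * i + 2 + g ≤ k) || (decide (2 * i + 3 ≤ k + g) && wb y m (i % m))

/-- output bit `i` of copy `j` -/
def fcell (f : List Bool → List Bool) (z : List Bool) (K n m j i : ℕ) : Bool :=
  cellv (gg z K n j) (kk z K n j) (f (xs z K n j)) m i

/-- The new function. -/
noncomputable def ff (B : Polynomial ℕ) (f : List Bool → List Bool) (z : List Bool) : List Bool :=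
  (List.range z.length).map fun idx =>
    decide (idx < (TP B).eval (nn B z.length)) &&
      fcell f z ((KP B).eval (nn B z.length)) (nn B z.length) ((mP B).eval (nn B z.length))
        (idx / (nn B z.length * (KP B).eval (nn B z.length)))
        (idx % (nn B z.length * (KP B).eval (nn B z.length)))

theorem ff_length (B : Polynomial ℕ) (f : List Bool → List Bool) (z : List Bool) :
    (ff B f z).length = z.length := by
  unfold ff
  simp

/-! ### Computability -/

section PolyS

variable {α : Type} [TEnc α]

theorem poly_ones {z : α → List Bool} {K s : α → ℕ} (hz : NPC.Poly z) (hK : UPoly K)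
    (hs : NPC.Poly s) : NPC.Poly (fun a => ones (z a) (K a) (s a)) := by
  unfold ones
  have hKp := hK.toPoly
  have hr : NPC.Poly (fun a => List.range (K a)) := hK.range
  fun_prop

theorem poly_mj {z : α → List Bool} {K s : α → ℕ} (hz : NPC.Poly z) (hK : UPoly K)
    (hs : NPC.Poly s) : NPC.Poly (fun a => mj (z a) (K a) (s a)) := by
  unfold mj
  have h := poly_ones hz hK hs
  have hKp := hK.toPoly
  fun_prop

theorem poly_mg {z : α → List Bool} {K s : α → ℕ} (hz : NPC.Poly z) (hK : UPoly K)
    (hs : NPC.Poly s) : NPC.Poly (fun a => mg (z a) (K a) (s a)) := by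
  unfold mg
  have h := poly_ones hz hK hs
  have hKp := hK.toPoly
  fun_prop

theorem poly_xs {z : α → List Bool} {K n j : α → ℕ} (hz : NPC.Poly z) (hK : UPoly K)
    (hn : UPoly n) (hj : NPC.Poly j) : NPC.Poly (fun a => xs (z a) (K a) (n a) (j a)) := by
  unfold xs
  have hnp := hn.toPoly
  refine NPC.Poly.map hn.range ?_
  refine poly_mj (hz.comp (NPC.Poly.fst NPC.Poly.id)) (hK.comp (NPC.Poly.fst NPC.Poly.id)) ?_
  fun_prop

theorem poly_vis {z : α → List Bool} {K n j i : α → ℕ} (hz : NPC.Poly z) (hK : UPoly K)
    (hn : UPoly n) (hj : NPC.Poly j) (hi : NPC.Poly i) :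
    NPC.Poly (fun a => vis (z a) (K a) (n a) (j a) (i a)) := by
  unfold vis
  have hnp := hn.toPoly
  refine NPC.Poly.all hn.range ?_
  refine NPC.Poly.decide_lt (hi.comp (NPC.Poly.fst NPC.Poly.id))
    (poly_mg (hz.comp (NPC.Poly.fst NPC.Poly.id)) (hK.comp (NPC.Poly.fst NPC.Poly.id)) ?_)
  fun_prop

theorem poly_gg {z : α → List Bool} {K n j : α → ℕ} (hz : NPC.Poly z)
    (hK : UPoly K) (hn : UPoly n) (hj : NPC.Poly j) :
    NPC.Poly (fun a => gg (z a) (K a) (n a) (j a)) := by
  unfold gg
  refine NPC.Poly.length (NPC.Poly.filter hK.range ?_)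
  have h1 := NPC.Poly.fst (NPC.Poly.id (α := α × ℕ))
  exact poly_vis (hz.comp h1) (hK.comp h1) (hn.comp h1) (hj.comp h1) (NPC.Poly.snd NPC.Poly.id)

theorem poly_kk {z : α → List Bool} {K n j : α → ℕ} (hz : NPC.Poly z)
    (hK : UPoly K) (hn : UPoly n) (hj : NPC.Poly j) :
    NPC.Poly (fun a => kk (z a) (K a) (n a) (j a)) := by
  unfold kk
  have hnp := hn.toPoly
  refine NPC.Poly.sum (NPC.Poly.map hn.range ?_)
  have h1 := NPC.Poly.fst (NPC.Poly.id (α := α × ℕ))
  refine poly_ones (hz.comp h1) (hK.comp h1) ?_
  fun_prop

theorem poly_cellv {g k : α → ℕ} {y : α → List Bool} {m i : α → ℕ} (hg : NPC.Poly g)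
    (hk : NPC.Poly k) (hy : NPC.Poly y) (hm : NPC.Poly m) (hi : NPC.Poly i) :
    NPC.Poly (fun a => cellv (g a) (k a) (y a) (m a) (i a)) := by
  unfold cellv wb
  fun_prop

theorem poly_fcell {f : List Bool → List Bool} (hf : NPC.Poly f) {z : α → List Bool}
    {K n m j i : α → ℕ} (hz : NPC.Poly z)
    (hK : UPoly K) (hn : UPoly n) (hm : NPC.Poly m) (hj : NPC.Poly j) (hi : NPC.Poly i) :
    NPC.Poly (fun a => fcell f (z a) (K a) (n a) (m a) (j a) (i a)) := by
  unfold fcell
  exact poly_cellv (poly_gg hz hK hn hj) (poly_kk hz hK hn hj)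
    (hf.comp (poly_xs hz hK hn hj)) hm hi

theorem poly_eval {n : α → ℕ} (hn : NPC.Poly n) (p : Polynomial ℕ) :
    NPC.Poly (fun a => p.eval (n a)) := by
  induction p using Polynomial.induction_on' with
  | add p q hp hq => simpa only [Polynomial.eval_add] using NPC.Poly.add hp hq
  | monomial k c =>
    simp only [Polynomial.eval_monomial]
    refine NPC.Poly.mul (NPC.Poly.const c) ?_
    induction k with
    | zero => simpa using NPC.Poly.const 1
    | succ k ih => simpa only [pow_succ] using NPC.Poly.mul ih hn

theorem uPoly_nn (B : Polynomial ℕ) {N : α → ℕ} (hN : UPoly N) : UPoly (fun a => nn B (N a)) := by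
  unfold nn
  refine UPoly.length (NPC.Poly.filter hN.range ?_)
  refine NPC.Poly.decide_le ?_ (hN.toPoly.comp (NPC.Poly.fst NPC.Poly.id))
  exact poly_eval (NPC.Poly.add (NPC.Poly.snd NPC.Poly.id) (NPC.Poly.const 1)) _

theorem poly_ff (B : Polynomial ℕ) {f : List Bool → List Bool} (hf : NPC.Poly f) :
    NPC.Poly (ff B f) := by
  have hN : UPoly (fun z : List Bool => z.length) := UPoly.length NPC.Poly.id
  have hn : UPoly (fun z : List Bool => nn B z.length) := uPoly_nn B hN
  have hK : UPoly (fun z : List Bool => (KP B).eval (nn B z.length)) := UPoly.eval hn _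
  have hm : UPoly (fun z : List Bool => (mP B).eval (nn B z.length)) := UPoly.eval hn _
  have hT : UPoly (fun z : List Bool => (TP B).eval (nn B z.length)) := UPoly.eval hn _
  unfold ff
  refine NPC.Poly.map hN.range ?_
  have hn' := hn.toPoly.comp (NPC.Poly.fst (NPC.Poly.id (α := List Bool × ℕ)))
  have hK' := hK.toPoly.comp (NPC.Poly.fst (NPC.Poly.id (α := List Bool × ℕ)))
  have hT' := hT.toPoly.comp (NPC.Poly.fst (NPC.Poly.id (α := List Bool × ℕ)))
  refine NPC.Poly.and (by fun_prop) ?_
  refine poly_fcell hf (NPC.Poly.fst NPC.Poly.id) (hK.comp (NPC.Poly.fst NPC.Poly.id))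
    (hn.comp (NPC.Poly.fst NPC.Poly.id)) (hm.toPoly.comp (NPC.Poly.fst NPC.Poly.id)) ?_ ?_
  · fun_prop
  · fun_prop

end PolyS

end Pool.Agent.NPC.L5h57.OW
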