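import Pool.Agent.L5helper57.OW.Defs

/-!
# The function with margins is non-expansive
-/

set_option autoImplicit false

namespace Pool.Agent.NPC.L5h57.OW

open Pool.Agent.NPC

theorem ones_eq (z : List Bool) (K s : ℕ) :
    ones z K s = ((Finset.range K).filter fun r => z.getD (s * K + r) false = true).card := by
  unfold ones
  rw [← List.toFinset_card_of_nodup (List.nodup_range.filter _)]
  congr 1
  ext b
  simp

theorem ones_congr {z z' : List Bool} {K s : ℕ}
    (h : ∀ r < K, z.getD (s * K + r) false = z'.getD (s * K + r) false) :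
    ones z K s = ones z' K s := by
  rw [ones_eq, ones_eq]
  congr 1
  apply Finset.filter_congr
  intro r hr
  rw [h r (Finset.mem_range.1 hr)]

theorem ones_le (z : List Bool) (K s : ℕ) : ones z K s ≤ K := by
  unfold ones
  refine (List.length_filter_le _ _).trans ?_
  rw [List.length_range]

/-- `z'` arises from `z` by changing the bit `k` from `false` to `true`. -/
def Adj1 (z z' : List Bool) (k : ℕ) : Prop :=
  (∀ i, i ≠ k → z.getD i false = z'.getD i false) ∧ z.getD k false = false ∧
    z'.getD k false = true

theorem Adj1.ones_ne {z z' : List Bool} {k : ℕ} (h : Adj1 z z' k) {K s : ℕ} (hs : s ≠ k / K) :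
    ones z K s = ones z' K s := by
  apply ones_congr
  intro r hr
  apply h.1
  rintro rfl
  apply hs
  rw [Nat.mul_comm s K, Nat.mul_add_div (by omega), Nat.div_eq_of_lt hr, add_zero]

theorem Adj1.ones_eq {z z' : List Bool} {k : ℕ} (h : Adj1 z z' k) {K : ℕ} (hK : 0 < K) :
    ones z' K (k / K) = ones z K (k / K) + 1 := by
  rw [OW.ones_eq, OW.ones_eq]
  have hk : k / K * K + k % K = k := Nat.div_add_mod' k K
  have h1 : ((Finset.range K).filter fun r => z'.getD (k / K * K + r) false = true) =
      insert (k % K) ((Finset.range K).filter fun r => z.getD (k / K * K + r) false = true) := by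
    ext r
    rw [Finset.mem_insert, Finset.mem_filter, Finset.mem_filter, Finset.mem_range]
    by_cases hr : r = k % K
    · subst hr
      rw [hk]
      simp only [true_or, iff_true]
      exact ⟨Nat.mod_lt _ hK, h.2.2⟩
    · have : k / K * K + r ≠ k := by omega
      rw [h.1 _ this]
      simp [hr]
  rw [h1, Finset.card_insert_of_notMem]
  rw [Finset.mem_filter, hk, h.2.1]
  simp

theorem Adj1.mj_mg {z z' : List Bool} {k : ℕ} (h : Adj1 z z' k) {K κ : ℕ} (hK : K = 2 * κ + 1) :
    (mj z K (k / K) = mj z' K (k / K) ∧ (mg z K (k / K) = mg z' K (k / K) + 1 ∨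
      mg z' K (k / K) = mg z K (k / K) + 1)) ∨
    (mg z K (k / K) = 0 ∧ mg z' K (k / K) = 0) := by
  have h1 := h.ones_eq (K := K) (by omega)
  have h2 : K / 2 = κ := by omega
  unfold mj mg
  rw [h1, h2]
  rcases Nat.lt_trichotomy (ones z K (k / K)) κ with h3 | h3 | h3
  · left
    rw [decide_eq_false (by omega), decide_eq_false (by omega), if_neg (by omega),
      if_neg (by omega)]
    exact ⟨rfl, Or.inl (by omega)⟩
  · right
    rw [if_neg (by omega), if_pos (by omega)]
    omega
  · left
    rw [decide_eq_true (by omega), decide_eq_true (by omega), if_pos (by omega),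
      if_pos (by omega)]
    exact ⟨rfl, Or.inr (by omega)⟩

theorem Adj1.mj_ne {z z' : List Bool} {k : ℕ} (h : Adj1 z z' k) {K s : ℕ} (hs : s ≠ k / K) :
    mj z K s = mj z' K s := by
  unfold mj
  rw [h.ones_ne hs]

theorem Adj1.mg_ne {z z' : List Bool} {k : ℕ} (h : Adj1 z z' k) {K s : ℕ} (hs : s ≠ k / K) :
    mg z K s = mg z' K s := by
  unfold mg
  rw [h.ones_ne hs]

/-! ### The smallest margin and the number of ones -/

theorem mg_le (z : List Bool) {K κ : ℕ} (hK : K = 2 * κ + 1) (s : ℕ) : mg z K s < K := by
  have := ones_le z K s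
  unfold mg
  split_ifs <;> omega

theorem vis_iff (z : List Bool) (K n j : ℕ) : ∀ i < K, vis z K n j i = true ↔ i < gg z K n j := by
  refine filter_spec (fun i => vis z K n j i) (fun k hk => ?_) K
  unfold vis at hk ⊢
  rw [List.all_eq_true] at hk ⊢
  intro b hb
  have := hk b hb
  rw [decide_eq_true_iff] at this ⊢
  omega

theorem gg_le_K (z : List Bool) (K n j : ℕ) : gg z K n j ≤ K := by
  unfold gg
  refine (List.length_filter_le _ _).trans ?_
  rw [List.length_range]

theorem gg_le (z : List Bool) {K κ n j b : ℕ} (hK : K = 2 * κ + 1) (hb : b < n) :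
    gg z K n j ≤ mg z K (j * n + b) := by
  by_contra hcon
  push Not at hcon
  have h1 := (vis_iff z K n j _ (mg_le z hK (j * n + b))).2 hcon
  unfold vis at h1
  rw [List.all_eq_true] at h1
  have := h1 b (List.mem_range.2 hb)
  rw [decide_eq_true_iff] at this
  omega

theorem exists_gg (z : List Bool) {K κ n : ℕ} (j : ℕ) (hK : K = 2 * κ + 1) (hn : 0 < n) :
    ∃ b < n, gg z K n j = mg z K (j * n + b) := by
  have h0 := gg_le (j := j) z hK hn
  have h1 := mg_le z hK (j * n + 0)
  have h2 : ¬ vis z K n j (gg z K n j) = true := by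
    rw [vis_iff z K n j _ (by omega)]
    omega
  unfold vis at h2
  rw [List.all_eq_true] at h2
  push Not at h2
  obtain ⟨b, hb, h3⟩ := h2
  rw [List.mem_range] at hb
  refine ⟨b, hb, le_antisymm (gg_le z hK hb) ?_⟩
  by_contra hcon
  apply h3
  rw [decide_eq_true_iff]
  omega

theorem kk_eq (z : List Bool) (K n j : ℕ) :
    kk z K n j = ∑ b ∈ Finset.range n, ones z K (j * n + b) := by
  unfold kk
  induction n with
  | zero => rfl
  | succ n ih =>
    clear ih
    rw [← List.sum_toFinset _ (List.nodup_range), List.toFinset_range]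

theorem kk_le (z : List Bool) (K n j : ℕ) : kk z K n j ≤ n * K := by
  rw [kk_eq]
  calc ∑ b ∈ Finset.range n, ones z K (j * n + b) ≤ ∑ _b ∈ Finset.range n, K :=
        Finset.sum_le_sum fun b _ => ones_le z K _
    _ = n * K := by rw [Finset.sum_const, Finset.card_range, smul_eq_mul]

theorem cellv_zero (k : ℕ) (y : List Bool) (m i : ℕ) :
    cellv 0 k y m i = decide (2 * i + 2 ≤ k) := by
  unfold cellv
  by_cases h : 2 * i + 2 ≤ k
  · rw [decide_eq_true (show 2 * i + 2 + 0 ≤ k by omega), Bool.true_or]
  · rw [decide_eq_false (show ¬ 2 * i + 2 + 0 ≤ k by omega),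
      decide_eq_false (show ¬ 2 * i + 3 ≤ k + 0 by omega), Bool.false_and, Bool.or_false]

theorem cellv_mono {g g' k : ℕ} (h1 : g' ≤ g + 1) (h2 : g ≤ g' + 1) (y : List Bool) (m i : ℕ)
    (h : cellv g k y m i = true) : cellv g' (k + 1) y m i = true := by
  unfold cellv at h ⊢
  rw [Bool.or_eq_true, Bool.and_eq_true, decide_eq_true_iff, decide_eq_true_iff] at h ⊢
  rcases h with h | ⟨h, h3⟩
  · left; omega
  · right; exact ⟨by omega, h3⟩

theorem cellv_ne {g g' k : ℕ} (y : List Bool) (m i : ℕ)
    (h : cellv g k y m i ≠ cellv g' (k + 1) y m i) :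
    ¬ ((2 * i + 2 + g ≤ k ↔ 2 * i + 2 + g' ≤ k + 1) ∧
      (2 * i + 3 ≤ k + g ↔ 2 * i + 3 ≤ k + 1 + g')) := by
  rintro ⟨h1, h2⟩
  apply h
  unfold cellv
  rw [decide_eq_decide.2 h1, decide_eq_decide.2 h2]

theorem cellv_unique {g g' k : ℕ} (h1 : g' ≤ g + 1) (h2 : g ≤ g' + 1) (y : List Bool)
    (m i i' : ℕ) (h : cellv g k y m i ≠ cellv g' (k + 1) y m i)
    (h' : cellv g k y m i' ≠ cellv g' (k + 1) y m i') : i = i' := by
  have e := cellv_ne y m i h
  have e' := cellv_ne y m i' h'
  omega

/-- What one flipped bit does to its copy. -/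
theorem Adj1.copy {z z' : List Bool} {k : ℕ} (h : Adj1 z z' k)
    {K κ n : ℕ} (hK : K = 2 * κ + 1) (hn : 0 < n) :
    kk z' K n (k / K / n) = kk z K n (k / K / n) + 1 ∧
    ((xs z K n (k / K / n) = xs z' K n (k / K / n) ∧
      gg z' K n (k / K / n) ≤ gg z K n (k / K / n) + 1 ∧
      gg z K n (k / K / n) ≤ gg z' K n (k / K / n) + 1) ∨
    (gg z K n (k / K / n) = 0 ∧ gg z' K n (k / K / n) = 0)) := by
  set j := k / K / n with hj
  have hb0 : j * n + (k / K) % n = k / K := by
    rw [hj]; exact Nat.div_add_mod' (k / K) n
  have hb0n : (k / K) % n < n := Nat.mod_lt _ hn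
  have hne : ∀ b, b ≠ (k / K) % n → j * n + b ≠ k / K := by
    intro b hb h1
    omega
  constructor
  · rw [kk_eq, kk_eq, ← Finset.add_sum_erase _ _ (Finset.mem_range.2 hb0n),
      ← Finset.add_sum_erase (Finset.range n) (fun b => ones z K (j * n + b))
        (Finset.mem_range.2 hb0n), hb0, h.ones_eq (by omega)]
    have : ∑ b ∈ (Finset.range n).erase ((k / K) % n), ones z' K (j * n + b) =
        ∑ b ∈ (Finset.range n).erase ((k / K) % n), ones z K (j * n + b) := by
      refine Finset.sum_congr rfl fun b hb => ?_
      exact (h.ones_ne (hne b (Finset.ne_of_mem_erase hb))).symm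
    rw [this]
    ring
  · rcases h.mj_mg hK with ⟨h1, h2⟩ | ⟨h1, h2⟩
    · left
      have hm : ∀ b < n, mg z' K (j * n + b) ≤ mg z K (j * n + b) + 1 ∧
          mg z K (j * n + b) ≤ mg z' K (j * n + b) + 1 := by
        intro b hb
        by_cases hs : b = (k / K) % n
        · rw [hs, hb0]
          omega
        · rw [h.mg_ne (hne b hs)]
          omega
      refine ⟨?_, ?_, ?_⟩
      · unfold xs
        refine List.map_congr_left fun b _ => ?_
        by_cases hs : b = (k / K) % n
        · rw [hs, hb0]; exact h1
        · exact h.mj_ne (hne b hs)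
      · obtain ⟨b, hb, e⟩ := exists_gg z j hK hn
        rw [e]
        exact (gg_le z' hK hb).trans (hm b hb).1
      · obtain ⟨b, hb, e⟩ := exists_gg z' j hK hn
        rw [e]
        exact (gg_le z hK hb).trans (hm b hb).2
    · right
      have e1 := gg_le (j := j) z hK hb0n
      have e2 := gg_le (j := j) z' hK hb0n
      rw [hb0] at e1 e2
      omega

/-- Nothing happens to the other copies. -/
theorem Adj1.other {f : List Bool → List Bool} {z z' : List Bool} {k : ℕ} (h : Adj1 z z' k)
    {K n : ℕ} (hn : 0 < n) {j : ℕ} (hj : j ≠ k / K / n) (m i : ℕ) :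
    fcell f z K n m j i = fcell f z' K n m j i := by
  have hs : ∀ b < n, j * n + b ≠ k / K := by
    intro b hb hs
    apply hj
    rw [← hs, Nat.mul_comm j n, Nat.mul_add_div hn, Nat.div_eq_of_lt hb, add_zero]
  have hxs : xs z K n j = xs z' K n j := by
    unfold xs
    refine List.map_congr_left fun b hb => ?_
    exact h.mj_ne (hs b (List.mem_range.1 hb))
  have hvis : ∀ i, vis z K n j i = vis z' K n j i := by
    intro i
    unfold vis
    rw [Bool.eq_iff_iff, List.all_eq_true, List.all_eq_true]
    refine forall₂_congr fun b hb => ?_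
    rw [h.mg_ne (hs b (List.mem_range.1 hb))]
  have hgg : gg z K n j = gg z' K n j := by
    unfold gg
    rw [funext hvis]
  have hkk : kk z K n j = kk z' K n j := by
    unfold kk
    congr 1
    refine List.map_congr_left fun b hb => ?_
    exact h.ones_ne (hs b (List.mem_range.1 hb))
  unfold fcell
  rw [hxs, hgg, hkk]

theorem Adj1.fcell_mono {f : List Bool → List Bool} {z z' : List Bool} {k : ℕ} (h : Adj1 z z' k)
    {K κ n m : ℕ} (hK : K = 2 * κ + 1) (hn : 0 < n) (j i : ℕ)
    (h1 : fcell f z K n m j i = true) : fcell f z' K n m j i = true := by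
  by_cases hj : j = k / K / n
  · subst hj
    unfold fcell at h1 ⊢
    obtain ⟨e1, e2 | e2⟩ := h.copy hK hn
    · rw [e1, ← e2.1]
      exact cellv_mono e2.2.1 e2.2.2 _ _ _ h1
    · rw [e2.1, cellv_zero, decide_eq_true_iff] at h1
      rw [e1, e2.2, cellv_zero, decide_eq_true_iff]
      omega
  · rw [← h.other hn hj]
    exact h1

theorem Adj1.fcell_unique {f : List Bool → List Bool} {z z' : List Bool} {k : ℕ}
    (h : Adj1 z z' k) {K κ n m : ℕ} (hK : K = 2 * κ + 1) (hn : 0 < n) {j i j' i' : ℕ}
    (h1 : fcell f z K n m j i ≠ fcell f z' K n m j i)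
    (h2 : fcell f z K n m j' i' ≠ fcell f z' K n m j' i') : j = j' ∧ i = i' := by
  have hj : j = k / K / n := by
    by_contra hj
    exact h1 (h.other hn hj m i)
  have hj' : j' = k / K / n := by
    by_contra hj
    exact h2 (h.other hn hj m i')
  refine ⟨hj.trans hj'.symm, ?_⟩
  rw [hj] at h1
  rw [hj'] at h2
  unfold fcell at h1 h2
  obtain ⟨e1, e2 | e2⟩ := h.copy hK hn
  · rw [e1, ← e2.1] at h1 h2
    exact cellv_unique e2.2.1 e2.2.2 _ _ _ _ h1 h2
  · rw [e1, e2.1, e2.2, cellv_zero, cellv_zero, ne_eq, decide_eq_decide] at h1 h2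
    omega

theorem KP_odd (B : Polynomial ℕ) (n : ℕ) :
    (KP B).eval n = 2 * (8 * n ^ 2 * (6 * (mP B).eval n) ^ 2) + 1 := by
  unfold KP
  simp only [Polynomial.eval_mul, Polynomial.eval_X, Polynomial.eval_add, Polynomial.eval_pow,
    Polynomial.eval_ofNat, Polynomial.eval_one]
  ring

theorem TP_eval (B : Polynomial ℕ) (n : ℕ) :
    (TP B).eval n = n * (n * (KP B).eval n) := by
  unfold TP
  simp only [Polynomial.eval_mul, Polynomial.eval_X]

theorem ff_getD (B : Polynomial ℕ) (f : List Bool → List Bool) (z : List Bool) {idx : ℕ}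
    (h : idx < z.length) : (ff B f z).getD idx false =
      (decide (idx < (TP B).eval (nn B z.length)) &&
        fcell f z ((KP B).eval (nn B z.length)) (nn B z.length) ((mP B).eval (nn B z.length))
          (idx / (nn B z.length * (KP B).eval (nn B z.length)))
          (idx % (nn B z.length * (KP B).eval (nn B z.length)))) := by
  rw [List.getD_eq_getElem _ _ (by rw [ff_length]; exact h)]
  unfold ff
  rw [List.getElem_map, List.getElem_range]

/-- The new function on vectors. -/
noncomputable def gF (B : Polynomial ℕ) (f : List Bool → List Bool) (N : ℕ) (z : Fin N → Bool) :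
    Fin N → Bool := fun i => (ff B f (List.ofFn z)).getD i false

theorem ff_ofFn (B : Polynomial ℕ) (f : List Bool → List Bool) {N : ℕ} (z : Fin N → Bool) :
    ff B f (List.ofFn z) = List.ofFn (gF B f N z) := by
  apply List.ext_getElem
  · rw [ff_length]; simp
  · intro i h1 h2
    rw [List.getElem_ofFn]
    unfold gF
    rw [List.getD_eq_getElem _ _ h1]

theorem getD_ofFn {N : ℕ} (z : Fin N → Bool) (k : ℕ) :
    (List.ofFn z).getD k false = if h : k < N then z ⟨k, h⟩ else false := by
  split_ifs with h
  · rw [List.getD_eq_getElem _ _ (by simpa using h), List.getElem_ofFn]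
  · rw [List.getD_eq_default _ _ (by simpa using h)]

theorem adj1_update {N : ℕ} (z : Fin N → Bool) (k : Fin N) (hk : z k = false) :
    Adj1 (List.ofFn z) (List.ofFn (Function.update z k true)) k := by
  refine ⟨fun i hi => ?_, ?_, ?_⟩
  · rw [getD_ofFn, getD_ofFn]
    split_ifs with h
    · rw [Function.update_of_ne]
      intro e
      exact hi (congrArg Fin.val e)
    · rfl
  · rw [getD_ofFn, dif_pos k.2]
    exact hk
  · rw [getD_ofFn, dif_pos k.2]
    simp

theorem gF_eq (B : Polynomial ℕ) (f : List Bool → List Bool) {N : ℕ} (z : Fin N → Bool)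
    (idx : Fin N) : gF B f N z idx = (decide ((idx : ℕ) < (TP B).eval (nn B N)) &&
        fcell f (List.ofFn z) ((KP B).eval (nn B N)) (nn B N) ((mP B).eval (nn B N))
          (idx / (nn B N * (KP B).eval (nn B N)))
          (idx % (nn B N * (KP B).eval (nn B N)))) := by
  have hlz : (List.ofFn z).length = N := by simp
  unfold gF
  rw [ff_getD B f _ (by rw [hlz]; exact idx.2), hlz]

theorem nn_pos {B : Polynomial ℕ} {N idx : ℕ} (h : idx < (TP B).eval (nn B N)) : 0 < nn B N := by
  rcases Nat.eq_zero_or_pos (nn B N) with h0 | h0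
  · rw [TP_eval, h0] at h
    omega
  · exact h0

theorem update_mono {N : ℕ} (B : Polynomial ℕ) (f : List Bool → List Bool) (z : Fin N → Bool)
    (k : Fin N) (hk : z k = false) : gF B f N z ≤ gF B f N (Function.update z k true) := by
  have hadj := adj1_update z k hk
  intro idx
  rw [Bool.le_iff_imp, gF_eq, gF_eq]
  by_cases hT : (idx : ℕ) < (TP B).eval (nn B N)
  · rw [decide_eq_true hT, Bool.true_and, Bool.true_and]
    exact hadj.fcell_mono (KP_odd B _) (nn_pos hT) _ _
  · rw [decide_eq_false hT, Bool.false_and, Bool.false_and]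
    exact id

theorem hamming_update {N : ℕ} (B : Polynomial ℕ) (f : List Bool → List Bool) (z : Fin N → Bool)
    (k : Fin N) (hk : z k = false) :
    hammingDist (gF B f N z) (gF B f N (Function.update z k true)) ≤ 1 := by
  have hadj := adj1_update z k hk
  unfold hammingDist
  rw [Finset.card_le_one]
  intro i hi i' hi'
  rw [Finset.mem_filter, gF_eq, gF_eq] at hi hi'
  have h1 := hi.2
  have h2 := hi'.2
  have hT : (i : ℕ) < (TP B).eval (nn B N) := by
    by_contra hT
    apply h1
    rw [decide_eq_false hT, Bool.false_and, Bool.false_and]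
  have hT' : (i' : ℕ) < (TP B).eval (nn B N) := by
    by_contra hT
    apply h2
    rw [decide_eq_false hT, Bool.false_and, Bool.false_and]
  rw [decide_eq_true hT, Bool.true_and, Bool.true_and] at h1
  rw [decide_eq_true hT', Bool.true_and, Bool.true_and] at h2
  obtain ⟨e1, e2⟩ := hadj.fcell_unique (KP_odd B _) (nn_pos hT) h1 h2
  apply Fin.ext
  rw [← Nat.div_add_mod' (i : ℕ) (nn B N * (KP B).eval (nn B N)), e1, e2]
  exact Nat.div_add_mod' _ _

/-- A map which increases along edges is monotone. -/
theorem mono_of_adj {N M : ℕ} (G : (Fin N → Bool) → (Fin M → Bool))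
    (h : ∀ z k, z k = false → G z ≤ G (Function.update z k true)) : Monotone G := by
  have key : ∀ (d : ℕ) (x y : Fin N → Bool), hammingDist x y = d → x ≤ y → G x ≤ G y := by
    intro d
    induction d with
    | zero =>
      intro x y hxy _
      rw [hammingDist_eq_zero] at hxy
      rw [hxy]
    | succ d ih =>
      intro x y hxy hle
      have hne : x ≠ y := by
        intro h
        rw [h, hammingDist_self] at hxy
        omega
      obtain ⟨k, hk⟩ := Function.ne_iff.1 hne
      have hk2 : x k = false ∧ y k = true := by
        have := hle k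
        revert hk this
        cases x k <;> cases y k <;> simp
      have hstep : hammingDist (Function.update x k true) y = d := by
        have h1 : (Finset.univ.filter fun i => x i ≠ y i) =
            insert k (Finset.univ.filter fun i => Function.update x k true i ≠ y i) := by
          ext i
          rw [Finset.mem_insert, Finset.mem_filter, Finset.mem_filter]
          by_cases hi : i = k
          · subst hi
            simp [hk]
          · rw [Function.update_of_ne hi]
            simp [hi]
        unfold hammingDist at hxy ⊢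
        rw [h1, Finset.card_insert_of_notMem] at hxy
        · omega
        · rw [Finset.mem_filter]
          simp [hk2.2]
      refine (h x k hk2.1).trans (ih _ _ hstep ?_)
      intro i
      by_cases hi : i = k
      · rw [hi, Function.update_self, hk2.2]
      · rw [Function.update_of_ne hi]
        exact hle i
  intro x y hxy
  exact key _ x y rfl hxy

/-- A map between cubes which does not expand edges is non-expansive. -/
theorem lip_of_adj {N M : ℕ} (G : (Fin N → Bool) → (Fin M → Bool))
    (h : ∀ z k, z k = false → hammingDist (G z) (G (Function.update z k true)) ≤ 1) :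
    ∀ x y, hammingDist (G x) (G y) ≤ hammingDist x y := by
  have key : ∀ (d : ℕ) (x y : Fin N → Bool), hammingDist x y = d →
      hammingDist (G x) (G y) ≤ d := by
    intro d
    induction d with
    | zero =>
      intro x y hxy
      rw [hammingDist_eq_zero] at hxy
      rw [hxy, hammingDist_self]
    | succ d ih =>
      intro x y hxy
      have hne : x ≠ y := by
        intro h
        rw [h, hammingDist_self] at hxy
        omega
      obtain ⟨k, hk⟩ := Function.ne_iff.1 hne
      have hstep : hammingDist (Function.update x k (y k)) y = d := by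
        have h1 : (Finset.univ.filter fun i => x i ≠ y i) =
            insert k (Finset.univ.filter fun i => Function.update x k (y k) i ≠ y i) := by
          ext i
          rw [Finset.mem_insert, Finset.mem_filter, Finset.mem_filter]
          by_cases hi : i = k
          · subst hi
            simp [hk]
          · rw [Function.update_of_ne hi]
            simp [hi]
        unfold hammingDist at hxy ⊢
        rw [h1, Finset.card_insert_of_notMem] at hxy
        · omega
        · rw [Finset.mem_filter]
          simp
      have h2 := ih _ _ hstep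
      have h3 : hammingDist (G x) (G (Function.update x k (y k))) ≤ 1 := by
        cases hx : x k with
        | false =>
          have hy : y k = true := by
            cases hy : y k
            · exact absurd (hx.trans hy.symm) hk
            · rfl
          rw [hy]
          exact h x k hx
        | true =>
          have hy : y k = false := by
            cases hy : y k
            · rfl
            · exact absurd (hx.trans hy.symm) hk
          rw [hy, hammingDist_comm]
          have h4 := h (Function.update x k false) k (by simp)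
          have e : Function.update (Function.update x k false) k true = x := by
            rw [Function.update_idem, ← hx, Function.update_eq_self]
          rwa [e] at h4
      calc hammingDist (G x) (G y) ≤ hammingDist (G x) (G (Function.update x k (y k))) +
            hammingDist (G (Function.update x k (y k))) (G y) := hammingDist_triangle _ _ _
        _ ≤ d + 1 := by omega
  intro x y
  exact key _ x y rfl

theorem gF_mono (B : Polynomial ℕ) (f : List Bool → List Bool) (N : ℕ) :
    Monotone (gF B f N) :=
  mono_of_adj _ fun z k hk => update_mono B f z k hk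

theorem gF_lip (B : Polynomial ℕ) (f : List Bool → List Bool) (N : ℕ) (x y : Fin N → Bool) :
    hammingDist (gF B f N x) (gF B f N y) ≤ hammingDist x y :=
  lip_of_adj _ (fun z k hk => hamming_update B f z k hk) x y

end Pool.Agent.NPC.L5h57.OW
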