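import Pool.Agent.L5helper57.OW.Count

/-!
# One-way functions give non-expansive one-way functions
-/

set_option autoImplicit false

namespace Pool.Agent.NPC.L5h57.OW

open Pool.Agent.NPC Finset Filter

theorem nn_tendsto (B : Polynomial ℕ) : Tendsto (nn B) atTop atTop := by
  rw [tendsto_atTop]
  intro b
  filter_upwards [eventually_ge_atTop ((TP B).eval b)] with N hN
  by_contra hcon
  push Not at hcon
  have h1 := (nn_spec B N).2
  have h2 := eval_mono (TP B) (show nn B N + 1 ≤ b by omega)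
  omega

theorem eval_le_pow (P : Polynomial ℕ) : ∃ d, ∀ᶠ n : ℕ in atTop, P.eval n ≤ n ^ d := by
  induction P using Polynomial.induction_on' with
  | add p q hp hq =>
    obtain ⟨a, ha⟩ := hp
    obtain ⟨b, hb⟩ := hq
    refine ⟨max a b + 1, ?_⟩
    filter_upwards [ha, hb, eventually_ge_atTop 2] with n h1 h2 h3
    rw [Polynomial.eval_add]
    have e1 : n ^ a ≤ n ^ max a b := Nat.pow_le_pow_right (by omega) (le_max_left _ _)
    have e2 : n ^ b ≤ n ^ max a b := Nat.pow_le_pow_right (by omega) (le_max_right _ _)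
    calc _ ≤ n ^ max a b + n ^ max a b := by omega
      _ = n ^ max a b * 2 := by ring
      _ ≤ n ^ max a b * n := Nat.mul_le_mul_left _ h3
      _ = n ^ (max a b + 1) := (pow_succ _ _).symm
  | monomial k c =>
    refine ⟨k + 1, ?_⟩
    filter_upwards [eventually_ge_atTop c] with n h1
    rw [Polynomial.eval_monomial, pow_succ, mul_comm]
    exact Nat.mul_le_mul_left _ h1

theorem pow_le_two_pow (d : ℕ) : ∀ᶠ n : ℕ in atTop, 2 * n ^ d ≤ 2 ^ n := by
  have h := tendsto_pow_const_div_const_pow_of_one_lt d (r := (2 : ℝ)) (by norm_num)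
  have h2 := h.eventually (gt_mem_nhds (show (0 : ℝ) < 1 / 2 by norm_num))
  filter_upwards [h2] with n hn
  rw [div_lt_iff₀ (by positivity)] at hn
  have h3 : (2 * n ^ d : ℝ) ≤ 2 ^ n := by linarith
  exact_mod_cast h3

theorem oneWay_ff {f : List Bool → List Bool} {B : Polynomial ℕ}
    (hB : ∀ x, (f x).length ≤ B.eval x.length) (hf : OneWay f) : OneWay (ff B f) := by
  have hfp : NPC.Poly f := H622R2.poly_of_polyTime hf.1
  refine ⟨H622R2.polyTime_of_poly_list (poly_ff B hfp), ?_⟩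
  intro A hA q c
  have hAp : NPC.Poly A := H622R2.poly_of_polyTime hA
  have hal : PolyTime (alg B q f A) := H622R2.polyTime_of_poly_list (poly_alg B q hfp hAp)
  obtain ⟨d, hd⟩ := eval_le_pow (2 * Polynomial.X * ((TP B).comp (Polynomial.X + 1)) ^ c)
  obtain ⟨d2, hd2⟩ := eval_le_pow (((TP B).comp (Polynomial.X + 1)) ^ c)
  have h1 := hf.2 (alg B q f A) hal (qP B q) d
  have h2 := (nn_tendsto B).eventually h1
  have h3 := (nn_tendsto B).eventually hd
  have h4 := (nn_tendsto B).eventually hd2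
  have h5 := (nn_tendsto B).eventually (pow_le_two_pow d2)
  filter_upwards [h2, h3, h4, h5] with N h2 h3 h4 h5
  set n := nn B N with hn
  have hlt := (nn_spec B N).2
  rw [← hn] at hlt
  have hRle : N + q.eval N ≤ (qP B q).eval n := by
    rw [qP_eval]
    have := eval_mono q hlt.le
    omega
  obtain ⟨R, hR⟩ := Nat.exists_eq_add_of_le hRle
  have key := count_all (A := A) hB q hn.symm (R := R) (by omega)
  simp only [Polynomial.eval_mul, Polynomial.eval_pow, Polynomial.eval_comp, Polynomial.eval_X,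
    Polynomial.eval_add, Polynomial.eval_one, Polynomial.eval_ofNat] at h3 h4
  have hNc : N ^ c ≤ ((TP B).eval (n + 1)) ^ c := Nat.pow_le_pow_left hlt.le c
  set I := invCount (ff B f) A N (q.eval N) with hI
  set I' := invCount f (alg B q f A) n ((qP B q).eval n) with hI'
  have e1 : 2 * n * N ^ c ≤ n ^ d := (Nat.mul_le_mul_left _ hNc).trans h3
  have e2 : 2 * N ^ c ≤ 2 ^ n :=
    (Nat.mul_le_mul_left _ (hNc.trans h4)).trans h5
  have e3 : 2 ^ (n + (qP B q).eval n) = 2 ^ n * (2 ^ R * 2 ^ (N + q.eval N)) := by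
    rw [hR, pow_add, pow_add 2 (N + q.eval N) R]
    ring
  have e4 : (2 ^ n * 2 ^ R * 2) * (I * N ^ c) < (2 ^ n * 2 ^ R * 2) * 2 ^ (N + q.eval N) := by
    calc (2 ^ n * 2 ^ R * 2) * (I * N ^ c) = (2 * N ^ c) * (2 ^ n * 2 ^ R * I) := by ring
      _ ≤ (2 * N ^ c) * (n * I' + 2 ^ R * 2 ^ (N + q.eval N)) := Nat.mul_le_mul_left _ key
      _ = I' * (2 * n * N ^ c) + (2 * N ^ c) * (2 ^ R * 2 ^ (N + q.eval N)) := by ring
      _ ≤ I' * n ^ d + 2 ^ n * (2 ^ R * 2 ^ (N + q.eval N)) :=
          Nat.add_le_add (Nat.mul_le_mul_left _ e1) (Nat.mul_le_mul_right _ e2)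
      _ < 2 ^ (n + (qP B q).eval n) + 2 ^ n * (2 ^ R * 2 ^ (N + q.eval N)) :=
          Nat.add_lt_add_right h2 _
      _ = (2 ^ n * 2 ^ R * 2) * 2 ^ (N + q.eval N) := by rw [e3]; ring
  exact Nat.lt_of_mul_lt_mul_left e4

theorem len_bound {f : List Bool → List Bool} (hf : NPC.Poly f) :
    ∃ B : Polynomial ℕ, ∀ x, (f x).length ≤ B.eval x.length := by
  obtain ⟨r, hr⟩ := hf.sz_le
  refine ⟨r.comp (Polynomial.X * 4 + 1), fun x => ?_⟩
  have h1 := sz_le_length_mul x 3 (fun b _ => sz_bool_le b)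
  have h2 := length_lt_sz (f x)
  have h3 := eval_mono r h1
  have h4 := hr x
  simp only [Polynomial.eval_comp, Polynomial.eval_add, Polynomial.eval_mul, Polynomial.eval_X,
    Polynomial.eval_ofNat, Polynomial.eval_one]
  norm_num only at h3
  omega

/-- **One-way functions exist iff length-preserving monotone non-expansive one-way functions
exist.** -/
theorem oneWay_iff : (∃ f, OneWay f) ↔
    ∃ (f : List Bool → List Bool) (g : (n : ℕ) → (Fin n → Bool) → (Fin n → Bool)), OneWay f ∧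
      (∀ n x, f (List.ofFn x) = List.ofFn (g n x)) ∧ (∀ n, Monotone (g n)) ∧
      ∀ n x y, hammingDist (g n x) (g n y) ≤ hammingDist x y := by
  constructor
  · rintro ⟨f, hf⟩
    obtain ⟨B, hB⟩ := len_bound (H622R2.poly_of_polyTime hf.1)
    exact ⟨ff B f, gF B f, oneWay_ff hB hf, fun n x => ff_ofFn B f x, gF_mono B f, gF_lip B f⟩
  · rintro ⟨f, _, hf, _⟩
    exact ⟨f, hf⟩

end Pool.Agent.NPC.L5h57.OW
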