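import Pool.Agent.L5helper57.OW.Lip

/-!
# Changing the input coded by a copy, and reading a preimage of `f`
-/

set_option autoImplicit false

namespace Pool.Agent.NPC.L5h57.OW

open Pool.Agent.NPC

/-- complement the blocks of copy `j` whose majority is not the prescribed one -/
def tw (K n j : ℕ) {N : ℕ} (x : Fin n → Bool) (z : Fin N → Bool) : Fin N → Bool := fun k =>
  if (k : ℕ) / K / n = j then
    z k ^^ (mj (List.ofFn z) K (k / K) ^^ (List.ofFn x).getD ((k : ℕ) / K % n) false)
  else z k

/-- the input coded by copy `j` -/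
def xf (K n j : ℕ) {N : ℕ} (z : Fin N → Bool) : Fin n → Bool := fun b =>
  mj (List.ofFn z) K (j * n + b)

section

variable {K κ n j N : ℕ}

theorem getD_tw (hK : 0 < K) (x : Fin n → Bool) (z : Fin N → Bool) {s r : ℕ} (hr : r < K)
    (hN : s * K + r < N) : (List.ofFn (tw K n j x z)).getD (s * K + r) false =
      if s / n = j then (List.ofFn z).getD (s * K + r) false ^^
        (mj (List.ofFn z) K s ^^ (List.ofFn x).getD (s % n) false)
      else (List.ofFn z).getD (s * K + r) false := by
  rw [getD_ofFn, dif_pos hN, getD_ofFn z, dif_pos hN]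
  unfold tw
  have : (s * K + r) / K = s := by
    rw [Nat.mul_comm s K, Nat.mul_add_div hK, Nat.div_eq_of_lt hr, add_zero]
  simp only [this]

theorem ones_tw_ne (hK : 0 < K) (x : Fin n → Bool) (z : Fin N → Bool) {s : ℕ}
    (hs : s / n ≠ j) (hN : s * K + K ≤ N) :
    ones (List.ofFn (tw K n j x z)) K s = ones (List.ofFn z) K s := by
  apply ones_congr
  intro r hr
  rw [getD_tw hK x z hr (by omega), if_neg hs]

theorem ones_tw_eq (hK : 0 < K) (x : Fin n → Bool) (z : Fin N → Bool) {s : ℕ}
    (hs : s / n = j) (hN : s * K + K ≤ N) (h : mj (List.ofFn z) K s =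
      (List.ofFn x).getD (s % n) false) :
    ones (List.ofFn (tw K n j x z)) K s = ones (List.ofFn z) K s := by
  apply ones_congr
  intro r hr
  rw [getD_tw hK x z hr (by omega), if_pos hs, h, Bool.xor_self, Bool.xor_false]

theorem ones_tw_compl (hK : 0 < K) (x : Fin n → Bool) (z : Fin N → Bool) {s : ℕ}
    (hs : s / n = j) (hN : s * K + K ≤ N) (h : mj (List.ofFn z) K s ≠
      (List.ofFn x).getD (s % n) false) :
    ones (List.ofFn (tw K n j x z)) K s = K - ones (List.ofFn z) K s := by
  have h1 : (mj (List.ofFn z) K s ^^ (List.ofFn x).getD (s % n) false) = true := by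
    revert h
    cases mj (List.ofFn z) K s <;> cases (List.ofFn x).getD (s % n) false <;> simp
  rw [ones_eq, ones_eq]
  have h2 : ((Finset.range K).filter fun r =>
      (List.ofFn (tw K n j x z)).getD (s * K + r) false = true) =
      (Finset.range K).filter fun r => ¬ (List.ofFn z).getD (s * K + r) false = true := by
    apply Finset.filter_congr
    intro r hr
    rw [getD_tw hK x z (Finset.mem_range.1 hr) (by have := Finset.mem_range.1 hr; omega),
      if_pos hs, h1, Bool.xor_true]
    cases (List.ofFn z).getD (s * K + r) false <;> simp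
  rw [h2]
  have h3 := Finset.card_filter_add_card_filter_not (s := Finset.range K)
    (fun r => (List.ofFn z).getD (s * K + r) false = true)
  rw [Finset.card_range] at h3
  omega

theorem mj_tw (hK : K = 2 * κ + 1) (x : Fin n → Bool) (z : Fin N → Bool) {s : ℕ}
    (hs : s / n = j) (hN : s * K + K ≤ N) :
    mj (List.ofFn (tw K n j x z)) K s = (List.ofFn x).getD (s % n) false := by
  by_cases h : mj (List.ofFn z) K s = (List.ofFn x).getD (s % n) false
  · unfold mj at h ⊢
    rw [ones_tw_eq (by omega) x z hs hN h, h]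
  · have h1 := ones_tw_compl (by omega) x z hs hN h
    have h2 : mj (List.ofFn (tw K n j x z)) K s = !mj (List.ofFn z) K s := by
      unfold mj
      rw [h1]
      have h3 := ones_le (List.ofFn z) K s
      by_cases h4 : K / 2 < ones (List.ofFn z) K s
      · rw [decide_eq_true h4, decide_eq_false (by omega)]; rfl
      · rw [decide_eq_false h4, decide_eq_true (by omega)]; rfl
    rw [h2]
    revert h
    cases mj (List.ofFn z) K s <;> cases (List.ofFn x).getD (s % n) false <;> simp

theorem mg_tw (hK : K = 2 * κ + 1) (x : Fin n → Bool) (z : Fin N → Bool) {s : ℕ}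
    (hN : s * K + K ≤ N) :
    mg (List.ofFn (tw K n j x z)) K s = mg (List.ofFn z) K s := by
  by_cases hs : s / n = j
  · by_cases h : mj (List.ofFn z) K s = (List.ofFn x).getD (s % n) false
    · unfold mg
      rw [ones_tw_eq (by omega) x z hs hN h]
    · have h1 := ones_tw_compl (by omega) x z hs hN h
      unfold mg
      rw [h1]
      have h3 := ones_le (List.ofFn z) K s
      by_cases h4 : K / 2 < ones (List.ofFn z) K s
      · rw [if_pos h4, if_neg (by omega)]; omega
      · rw [if_neg h4, if_pos (by omega)]; omega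
  · unfold mg
    rw [ones_tw_ne (by omega) x z hs hN]

theorem mj_tw_ne (hK : 0 < K) (x : Fin n → Bool) (z : Fin N → Bool) {s : ℕ}
    (hs : s / n ≠ j) (hN : s * K + K ≤ N) :
    mj (List.ofFn (tw K n j x z)) K s = mj (List.ofFn z) K s := by
  unfold mj
  rw [ones_tw_ne hK x z hs hN]

theorem blk_fit {b : ℕ} (hj : j < n) (hb : b < n) (hT : n * (n * K) ≤ N) :
    (j * n + b) * K + K ≤ N := by
  refine le_trans ?_ hT
  have h1 : j * n + b + 1 ≤ n * n := by nlinarith
  calc (j * n + b) * K + K = (j * n + b + 1) * K := by ring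
    _ ≤ (n * n) * K := Nat.mul_le_mul_right _ h1
    _ = n * (n * K) := by ring

theorem div_blk {b : ℕ} (hb : b < n) : (j * n + b) / n = j := by
  rw [Nat.mul_comm j n, Nat.mul_add_div (by omega), Nat.div_eq_of_lt hb, add_zero]

theorem mod_blk {b : ℕ} (hb : b < n) : (j * n + b) % n = b := by
  rw [Nat.mul_comm j n, Nat.mul_add_mod, Nat.mod_eq_of_lt hb]

theorem xs_eq (z : Fin N → Bool) : xs (List.ofFn z) K n j = List.ofFn (xf K n j z) := by
  unfold xs xf
  apply List.ext_getElem
  · simp
  · intro i h1 h2
    simp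

theorem xf_tw (hK : K = 2 * κ + 1) (hj : j < n) (hT : n * (n * K) ≤ N) (x : Fin n → Bool)
    (z : Fin N → Bool) : xf K n j (tw K n j x z) = x := by
  funext b
  unfold xf
  rw [mj_tw hK x z (div_blk b.2) (blk_fit hj b.2 hT), mod_blk b.2, getD_ofFn, dif_pos b.2]

/-- Twisting twice. -/
theorem tw_tw (hK : K = 2 * κ + 1) (hj : j < n) (hT : n * (n * K) ≤ N) (x : Fin n → Bool)
    (z : Fin N → Bool) : tw K n j (xf K n j z) (tw K n j x z) = z := by
  funext k
  by_cases hk : (k : ℕ) / K / n = j
  · have hn : 0 < n := by omega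
    set s := (k : ℕ) / K with hs
    have hb : s % n < n := Nat.mod_lt _ hn
    have hsb : j * n + s % n = s := by rw [← hk]; exact Nat.div_add_mod' s n
    have hfit := blk_fit (b := s % n) hj hb hT
    rw [hsb] at hfit
    unfold tw
    rw [if_pos hk, if_pos hk]
    have e1 := mj_tw (j := j) hK x z hk hfit
    unfold tw at e1
    rw [← hs, e1]
    have e2 : (List.ofFn (xf K n j z)).getD (s % n) false = mj (List.ofFn z) K s := by
      rw [getD_ofFn, dif_pos hb]
      unfold xf
      simp only
      rw [hsb]
    rw [e2]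
    cases z k <;> cases mj (List.ofFn z) K s <;> cases (List.ofFn x).getD (s % n) false <;> rfl
  · unfold tw
    rw [if_neg hk, if_neg hk]

theorem vis_tw (hK : K = 2 * κ + 1) (hT : n * (n * K) ≤ N) (x : Fin n → Bool)
    (z : Fin N → Bool) {j' : ℕ} (hj' : j' < n) (i : ℕ) :
    vis (List.ofFn (tw K n j x z)) K n j' i = vis (List.ofFn z) K n j' i := by
  unfold vis
  rw [Bool.eq_iff_iff, List.all_eq_true, List.all_eq_true]
  refine forall₂_congr fun b hb => ?_
  rw [mg_tw hK x z (blk_fit hj' (List.mem_range.1 hb) hT)]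

theorem gg_tw (hK : K = 2 * κ + 1) (hT : n * (n * K) ≤ N) (x : Fin n → Bool)
    (z : Fin N → Bool) {j' : ℕ} (hj' : j' < n) :
    gg (List.ofFn (tw K n j x z)) K n j' = gg (List.ofFn z) K n j' := by
  unfold gg
  congr 1
  refine List.filter_congr fun i _ => ?_
  exact vis_tw hK hT x z hj' i

theorem kk_tw_ne (hK : K = 2 * κ + 1) (hT : n * (n * K) ≤ N) (x : Fin n → Bool)
    (z : Fin N → Bool) {j' : ℕ} (hj' : j' < n) (hne : j' ≠ j) :
    kk (List.ofFn (tw K n j x z)) K n j' = kk (List.ofFn z) K n j' := by
  unfold kk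
  congr 1
  refine List.map_congr_left fun b hb => ?_
  refine ones_tw_ne (by omega) x z ?_ (blk_fit hj' (List.mem_range.1 hb) hT)
  rw [div_blk (List.mem_range.1 hb)]
  exact hne

/-- The output bits after a twist. -/
theorem fcell_tw (f : List Bool → List Bool) (hK : K = 2 * κ + 1) (hT : n * (n * K) ≤ N)
    (hj : j < n) (x : Fin n → Bool) (z : Fin N → Bool) {j' : ℕ} (hj' : j' < n) (m i : ℕ) :
    fcell f (List.ofFn (tw K n j x z)) K n m j' i =
      if j' = j then cellv (gg (List.ofFn z) K n j) (kk (List.ofFn (tw K n j x z)) K n j)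
        (f (List.ofFn x)) m i
      else fcell f (List.ofFn z) K n m j' i := by
  split_ifs with h
  · subst h
    unfold fcell
    rw [gg_tw hK hT x z hj', xs_eq, xf_tw hK hj hT]
  · unfold fcell
    rw [gg_tw hK hT x z hj', kk_tw_ne hK hT x z hj' h]
    have : xs (List.ofFn (tw K n j x z)) K n j' = xs (List.ofFn z) K n j' := by
      unfold xs
      refine List.map_congr_left fun b hb => ?_
      refine mj_tw_ne (by omega) x z ?_ (blk_fit hj' (List.mem_range.1 hb) hT)
      rw [div_blk (List.mem_range.1 hb)]
      exact h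
    rw [this]

end

/-! ### Reading the value -/

theorem code_length (y : List Bool) : (y.flatMap fun b => [true, b]).length = 2 * y.length := by
  induction y with
  | nil => rfl
  | cons b y ih =>
    rw [List.flatMap_cons, List.length_append, ih]
    simp
    omega

theorem code_inj : ∀ (y y' : List Bool), (∀ i, (y.flatMap fun b => [true, b]).getD i false =
    (y'.flatMap fun b => [true, b]).getD i false) → y = y'
  | [], [], _ => rfl
  | [], b :: y', h => by
    have := h 0
    simp at this
  | b :: y, [], h => by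
    have := h 0
    simp at this
  | b :: y, b' :: y', h => by
    have h1 := h 1
    have h2 : y = y' := code_inj y y' fun i => by
      have := h (i + 2)
      simpa using this
    simp at h1
    rw [h1, h2]

theorem wb_inj {y y' : List Bool} {m : ℕ} (hy : 2 * y.length + 1 ≤ m)
    (hy' : 2 * y'.length + 1 ≤ m) (h : ∀ i < m, wb y m i = wb y' m i) : y = y' := by
  apply code_inj
  intro i
  by_cases hi : i + 1 < m
  · have := h i (by omega)
    unfold wb at this
    rw [if_neg (by omega), if_neg (by omega)] at this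
    exact this
  · rw [List.getD_eq_default _ _ (by rw [code_length]; omega),
      List.getD_eq_default _ _ (by rw [code_length]; omega)]

theorem wb_last (y : List Bool) {m : ℕ} (hm : 0 < m) : wb y m (m - 1) = true := by
  unfold wb
  rw [if_pos (by omega)]

theorem wb_pen (y : List Bool) {m : ℕ} (hy : 2 * y.length + 2 ≤ m) :
    wb y m (m - 2) = false := by
  unfold wb
  rw [if_neg (by omega), List.getD_eq_default _ _ (by rw [code_length]; omega)]

theorem exists_mod (a : ℕ) {m ρ : ℕ} (h : ρ < m) : ∃ i, a ≤ i ∧ i < a + m ∧ i % m = ρ := by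
  have h1 : a % m < m := Nat.mod_lt _ (by omega)
  have h2 : m * (a / m) + a % m = a := Nat.div_add_mod a m
  by_cases hc : a % m ≤ ρ
  · refine ⟨m * (a / m) + ρ, by omega, by omega, ?_⟩
    rw [Nat.mul_add_mod, Nat.mod_eq_of_lt h]
  · refine ⟨m * (a / m + 1) + ρ, ?_, ?_, ?_⟩
    · rw [Nat.mul_add, Nat.mul_one]; omega
    · rw [Nat.mul_add, Nat.mul_one]; omega
    · rw [Nat.mul_add_mod, Nat.mod_eq_of_lt h]

/-- Two codes seen through windows of which one is long. -/
theorem cellv_read {g k g' k' m L : ℕ} {y y' : List Bool} (hy : 2 * y.length + 2 ≤ m)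
    (hy' : 2 * y'.length + 2 ≤ m) (hg : 6 * m ≤ g) (hL : k + g ≤ 2 * L)
    (h : ∀ i < L, cellv g' k' y' m i = cellv g k y m i) : y' = y := by
  have hm : 0 < m := by omega
  obtain ⟨i0, h01, h02, h03⟩ := exists_mod ((k - g) / 2) (m := m) (ρ := m - 2) (by omega)
  obtain ⟨i1, h11, h12, h13⟩ := exists_mod ((k + g - 1) / 2 - m) (m := m) (ρ := m - 1) (by omega)
  have e0 := h i0 (by omega)
  have e1 := h i1 (by omega)
  unfold cellv at e0 e1
  rw [h03, wb_pen y hy, wb_pen y' hy', Bool.and_false, Bool.and_false, Bool.or_false,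
    Bool.or_false, decide_eq_decide] at e0
  rw [h13, wb_last y hm, wb_last y' hm, Bool.and_true, Bool.and_true,
    decide_eq_false (show ¬ 2 * i1 + 2 + g ≤ k by omega),
    decide_eq_true (show 2 * i1 + 3 ≤ k + g by omega), Bool.or_true, Bool.or_eq_true,
    decide_eq_true_iff, decide_eq_true_iff] at e1
  refine wb_inj (m := m) (by omega) (by omega) fun ρ hρ => ?_
  obtain ⟨i, h21, h22, h23⟩ := exists_mod i0 (m := m) (ρ := ρ) hρ
  have e2 := h i (by omega)
  unfold cellv at e2
  rw [decide_eq_false (show ¬ 2 * i + 2 + g ≤ k by omega),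
    decide_eq_true (show 2 * i + 3 ≤ k + g by omega),
    decide_eq_false (show ¬ 2 * i + 2 + g' ≤ k' by omega),
    decide_eq_true (show 2 * i + 3 ≤ k' + g' by omega), Bool.false_or, Bool.false_or,
    Bool.true_and, Bool.true_and, h23] at e2
  exact e2

/-- The copy `j` has all margins at least `6 * m`. -/
def Good (z : List Bool) (K n m j : ℕ) : Prop := ∀ b < n, 6 * m ≤ mg z K (j * n + b)

/-- A preimage of an output with a good copy gives a preimage of the value of `f`. -/
theorem read {f : List Bool → List Bool} {B : Polynomial ℕ}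
    (hB : ∀ x, (f x).length ≤ B.eval x.length) {z z' : List Bool} (hl : z'.length = z.length)
    {j : ℕ} (hj : j < nn B z.length)
    (hg : Good z ((KP B).eval (nn B z.length)) (nn B z.length) ((mP B).eval (nn B z.length)) j)
    (h : ff B f z' = ff B f z) :
    f (xs z' ((KP B).eval (nn B z.length)) (nn B z.length) j) =
      f (xs z ((KP B).eval (nn B z.length)) (nn B z.length) j) := by
  set n := nn B z.length with hn
  set K := (KP B).eval n with hK
  set m := (mP B).eval n with hm
  have hKo : K = 2 * (8 * n ^ 2 * (6 * m) ^ 2) + 1 := KP_odd B n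
  have hm1 : m = 2 * B.eval n + 2 := by
    rw [hm]
    unfold mP
    simp
  have hn0 : 0 < n := by omega
  have hT := (nn_spec B z.length).1
  rw [← hn, TP_eval, ← hK] at hT
  have hcell : ∀ i < n * K, fcell f z' K n m j i = fcell f z K n m j i := by
    intro i hi
    have hidx : j * (n * K) + i < n * (n * K) := by
      have : (j + 1) * (n * K) ≤ n * (n * K) := Nat.mul_le_mul_right _ hj
      have e : (j + 1) * (n * K) = j * (n * K) + n * K := by ring
      omega
    have h1 : (ff B f z').getD (j * (n * K) + i) false =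
      (ff B f z).getD (j * (n * K) + i) false := by rw [h]
    rw [ff_getD B f z (by omega), ff_getD B f z' (by omega), hl, ← hn, ← hK, ← hm, TP_eval,
      ← hK, decide_eq_true hidx, Bool.true_and, Bool.true_and] at h1
    have e1 : (j * (n * K) + i) / (n * K) = j := by
      rw [Nat.mul_comm j (n * K), Nat.mul_add_div (by omega), Nat.div_eq_of_lt (by omega), add_zero]
    have e2 : (j * (n * K) + i) % (n * K) = i := by
      rw [Nat.mul_comm j (n * K), Nat.mul_add_mod, Nat.mod_eq_of_lt (by omega)]
    rwa [e1, e2] at h1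
  have hx : ∀ w : List Bool, (f (xs w K n j)).length ≤ B.eval n := by
    intro w
    have := hB (xs w K n j)
    have e : (xs w K n j).length = n := by unfold xs; simp
    rwa [e] at this
  obtain ⟨b, hb, hgb⟩ := exists_gg z j hKo hn0
  have hg3 : 6 * m ≤ gg z K n j := by rw [hgb]; exact hg b hb
  have h1 := hx z
  have h2 := hx z'
  have hkl := kk_le z K n j
  have hgk : gg z K n j ≤ n * K := by
    refine (gg_le_K z K n j).trans ?_
    exact Nat.le_mul_of_pos_left _ hn0
  exact cellv_read (L := n * K) (by omega) (by omega) hg3 (by omega) hcell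

end Pool.Agent.NPC.L5h57.OW
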